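import Mathlib

set_option autoImplicit false

namespace Pool.Agent.HavelNB

open SimpleGraph

variable {V : Type*} {G : SimpleGraph V}

/-- Any two distinct triangles are at distance at least `d`. -/
def Far (G : SimpleGraph V) (d : ℕ∞) : Prop :=
  ∀ A B : Finset V, G.IsNClique 3 A → G.IsNClique 3 B → A ≠ B →
    ∀ a ∈ A, ∀ b ∈ B, d ≤ G.edist a b

/-- `v` is a vertex of a triangle. -/
def Tri (G : SimpleGraph V) (v : V) : Prop := ∃ T : Finset V, G.IsNClique 3 T ∧ v ∈ T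

theorem edist_le_one {a b : V} (h : G.Adj a b) : G.edist a b ≤ 1 := by
  have := G.edist_le (Walk.cons h Walk.nil)
  simpa using this

theorem edist_le_two {a b c : V} (h : G.Adj a b) (h' : G.Adj b c) : G.edist a c ≤ 2 := by
  have := G.edist_le (Walk.cons h (Walk.cons h' Walk.nil))
  refine this.trans ?_
  simp only [Walk.length_cons, Walk.length_nil]
  decide

theorem edist_le_three {a b c d : V} (h : G.Adj a b) (h' : G.Adj b c) (h'' : G.Adj c d) :
    G.edist a d ≤ 3 := by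
  have := G.edist_le (Walk.cons h (Walk.cons h' (Walk.cons h'' Walk.nil)))
  refine this.trans ?_
  simp only [Walk.length_cons, Walk.length_nil]
  decide

theorem eq_of_edist_le_three (h4 : Far G 4) {A B : Finset V} (hA : G.IsNClique 3 A)
    (hB : G.IsNClique 3 B) {a b : V} (ha : a ∈ A) (hb : b ∈ B) (h : G.edist a b ≤ 3) : A = B := by
  by_contra hne
  have h1 := h4 A B hA hB hne a ha b hb
  have h2 : (4 : ℕ∞) ≤ 3 := h1.trans h
  exact absurd h2 (by decide)

theorem eq_of_mem (h4 : Far G 4) {A B : Finset V} (hA : G.IsNClique 3 A)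
    (hB : G.IsNClique 3 B) {a : V} (ha : a ∈ A) (hb : a ∈ B) : A = B :=
  eq_of_edist_le_three h4 hA hB ha hb (by simp)

theorem eq_of_adj (h4 : Far G 4) {A B : Finset V} (hA : G.IsNClique 3 A)
    (hB : G.IsNClique 3 B) {a b : V} (ha : a ∈ A) (hb : b ∈ B) (h : G.Adj a b) : A = B :=
  eq_of_edist_le_three h4 hA hB ha hb ((edist_le_one h).trans (by decide))

theorem eq_of_walk2 (h4 : Far G 4) {A B : Finset V} (hA : G.IsNClique 3 A)
    (hB : G.IsNClique 3 B) {a x b : V} (ha : a ∈ A) (hb : b ∈ B) (h : G.Adj a x)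
    (h' : G.Adj x b) : A = B :=
  eq_of_edist_le_three h4 hA hB ha hb ((edist_le_two h h').trans (by decide))

theorem eq_of_walk3 (h4 : Far G 4) {A B : Finset V} (hA : G.IsNClique 3 A)
    (hB : G.IsNClique 3 B) {a x y b : V} (ha : a ∈ A) (hb : b ∈ B) (h : G.Adj a x)
    (h' : G.Adj x y) (h'' : G.Adj y b) : A = B :=
  eq_of_edist_le_three h4 hA hB ha hb (edist_le_three h h' h'')

theorem adj_of_mem {A : Finset V} (hA : G.IsNClique 3 A) {a b : V} (ha : a ∈ A) (hb : b ∈ A)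
    (h : a ≠ b) : G.Adj a b := hA.isClique ha hb h

/-- A vertex with two neighbours in a triangle is in a triangle. -/
theorem tri_of_two {A : Finset V} (hA : G.IsNClique 3 A) {a b z : V}
    (ha : a ∈ A) (hb : b ∈ A) (h : a ≠ b) (hza : G.Adj z a) (hzb : G.Adj z b) : Tri G z := by
  classical
  refine ⟨{z, a, b}, ?_, by simp⟩
  rw [is3Clique_iff]
  exact ⟨z, a, b, hza, hzb, adj_of_mem hA ha hb h, rfl⟩

/-- `v` is in `T` or adjacent to a vertex of `T`. -/
def Nb (G : SimpleGraph V) (T : Finset V) (v : V) : Prop := v ∈ T ∨ ∃ t ∈ T, G.Adj t v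

/-- Two adjacent vertices are near at most one triangle. -/
theorem eq_of_nb_adj_nb (h4 : Far G 4) {A B : Finset V} (hA : G.IsNClique 3 A)
    (hB : G.IsNClique 3 B) {u v : V} (hu : Nb G A u) (hv : Nb G B v) (h : G.Adj u v) : A = B := by
  rcases hu with hu | ⟨s, hs, hsu⟩
  · rcases hv with hv | ⟨t, ht, htv⟩
    · exact eq_of_adj h4 hA hB hu hv h
    · exact eq_of_walk2 h4 hA hB hu ht h htv.symm
  · rcases hv with hv | ⟨t, ht, htv⟩
    · exact eq_of_walk2 h4 hA hB hs hv hsu h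
    · exact eq_of_walk3 h4 hA hB hs ht hsu h htv.symm

theorem eq_of_nb_nb (h4 : Far G 4) {A B : Finset V} (hA : G.IsNClique 3 A)
    (hB : G.IsNClique 3 B) {u : V} (hu : Nb G A u) (hv : Nb G B u) : A = B := by
  rcases hu with hu | ⟨s, hs, hsu⟩
  · rcases hv with hv | ⟨t, ht, htv⟩
    · exact eq_of_mem h4 hA hB hu hv
    · exact eq_of_adj h4 hA hB hu ht htv.symm
  · rcases hv with hv | ⟨t, ht, htv⟩
    · exact eq_of_adj h4 hA hB hs hv hsu
    · exact eq_of_walk2 h4 hA hB hs ht hsu htv.symm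

/-- The local data at a triangle `T = {a, b, c}`: a set `W` of vertices, attached to the rest only at `a`, `c` and
`E ⊆ A₁ ∪ C₀`, containing all neighbours `p` of `a` in class `0` which lie on a 4-cycle `a p q c` with `q` in class `1`. -/
structure Loc (G : SimpleGraph V) (κ : V → Prop) (T : Finset V) (a b c : V) (W E : Set V) :
    Prop where
  ha : a ∈ T
  hb : b ∈ T
  hc : c ∈ T
  hab : a ≠ b
  hac : a ≠ c
  hbc : b ≠ c
  hall : ∀ v ∈ T, v = a ∨ v = b ∨ v = c
  hTW : ∀ v ∈ T, v ∉ W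
  hE : ∀ v ∈ E, v ∉ T ∧ v ∉ W ∧ ((G.Adj a v ∧ κ v) ∨ (G.Adj c v ∧ ¬ κ v))
  hbd : ∀ u v, G.Adj u v → u ∈ W → v ∉ W → v = a ∨ v = c ∨ v ∈ E
  hr : ∀ p q, G.Adj a p → p ∉ T → ¬ κ p → G.Adj p q → κ q → q ∉ T → G.Adj q c → p ∈ W

end Pool.Agent.HavelNB
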