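import Pool.Agent.Lib.MP_8e2345_co.NB.Data
import Pool.Agent.Lib.MP_8e2345_co.NB.Basic

set_option autoImplicit false
set_option maxRecDepth 100000

/-!
# A planar graph with 44 vertices: triangles at distance at least 3, bipartite without them, not 3-colourable
-/

namespace Pool.Agent.HavelNB.G44

open Pool.Agent.Havel SimpleGraph

/-- the graph -/
def G : SimpleGraph (Fin 44) := GG 44 out

/-- classes of the bipartite part -/
def cl : List ℕ := [0, 1, 1, 0, 0, 0, 0, 0, 1, 1, 0, 0, 0, 1, 0, 0, 0, 0, 1, 0, 1, 0, 1, 0, 0, 0, 1,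
  0, 0, 1, 0, 0, 0, 0, 0, 0, 1, 0, 0, 1, 0, 0, 0, 1]

/-- class -/
def kap (i : ℕ) : ℕ := cl.getD i 0

/-- check of the classes -/
def chk : Bool := (List.range 44).all fun u => (out u).all fun v =>
  Nat.beq (dd u) 0 || (Nat.beq (dd v) 0 || !(Nat.beq (kap u % 2) (kap v % 2)))

/-- check of the triangles -/
def chk2 : Bool := (List.range 44).all fun u => !(Nat.beq (dd u) 0) ||
  (decide ((tr (ow u)).2.1 ∈ out (tr (ow u)).1) && (decide ((tr (ow u)).2.2 ∈ out (tr (ow u)).1) &&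
    (decide ((tr (ow u)).2.2 ∈ out (tr (ow u)).2.1) && (decide ((tr (ow u)).1 < 44) &&
    (decide ((tr (ow u)).2.1 < 44) && (decide ((tr (ow u)).2.2 < 44) &&
    decide (u = (tr (ow u)).1 ∨ u = (tr (ow u)).2.1 ∨ u = (tr (ow u)).2.2)))))))

theorem chk_true : chk = true := by decide +kernel
theorem chk2_true : chk2 = true := by decide +kernel

theorem kap_ne {u v : ℕ} (hu : u < 44) (hv : v ∈ out u) (du : dd u ≠ 0) (dv : dd v ≠ 0) :
    kap u % 2 ≠ kap v % 2 := by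
  have h := chk_true
  simp only [chk, List.all_eq_true, List.mem_range] at h
  have h1 := h u hu v hv
  simp only [Bool.or_eq_true, Nat.beq_eq, du, dv, false_or, Bool.not_eq_true'] at h1
  intro h2
  rw [h2] at h1
  simp at h1

theorem mem_tri (u : Fin 44) (hu : dd u = 0) : Tri G u := by
  have h := chk2_true
  simp only [chk2, List.all_eq_true, List.mem_range] at h
  have h1 := h u u.2
  have h0 : Nat.beq (dd u) 0 = true := by rw [Nat.beq_eq]; exact hu
  rw [h0, Bool.not_true, Bool.false_or] at h1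
  simp only [Bool.and_eq_true, decide_eq_true_eq] at h1
  obtain ⟨h1, h2, h3, h4, h5, h6, h7⟩ := h1
  generalize hx : (tr (ow u)).1 = x at *
  generalize hy : (tr (ow u)).2.1 = y at *
  generalize hz : (tr (ow u)).2.2 = z at *
  have o1 := out_of_run Pool.Agent.HavelNB.G44.h1 x y h4 h1
  have o2 := out_of_run Pool.Agent.HavelNB.G44.h1 x z h4 h2
  have o3 := out_of_run Pool.Agent.HavelNB.G44.h1 y z h5 h3
  have a1 : G.Adj ⟨x, h4⟩ ⟨y, h5⟩ := GG_adj.2 ⟨by rw [Ne, Fin.mk.injEq]; omega, Or.inl h1⟩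
  have a2 : G.Adj ⟨x, h4⟩ ⟨z, h6⟩ := GG_adj.2 ⟨by rw [Ne, Fin.mk.injEq]; omega, Or.inl h2⟩
  have a3 : G.Adj ⟨y, h5⟩ ⟨z, h6⟩ := GG_adj.2 ⟨by rw [Ne, Fin.mk.injEq]; omega, Or.inl h3⟩
  refine ⟨{⟨x, h4⟩, ⟨y, h5⟩, ⟨z, h6⟩}, is3Clique_iff.2 ⟨_, _, _, a1, a2, a3, rfl⟩, ?_⟩
  simp only [Finset.mem_insert, Finset.mem_singleton, Fin.ext_iff]
  exact h7

theorem bip (I : Set (Fin 44)) :
    (G.induce {v | v ∉ I ∧ ∀ T : Finset (Fin 44), G.IsNClique 3 T → v ∉ T}).Colorable 2 := by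
  refine ⟨Coloring.mk (fun v => (⟨kap (v : Fin 44) % 2, Nat.mod_lt _ (by norm_num)⟩ : Fin 2)) ?_⟩
  rintro ⟨u, hu⟩ ⟨v, hv⟩ h
  have du : dd u ≠ 0 := fun h1 => by
    obtain ⟨T, hT, hx⟩ := mem_tri u h1
    exact hu.2 T hT hx
  have dv : dd v ≠ 0 := fun h1 => by
    obtain ⟨T, hT, hx⟩ := mem_tri v h1
    exact hv.2 T hT hx
  have h2 : G.Adj u v := h
  rw [Ne, Fin.mk.injEq]
  rcases (GG_adj.1 h2).2 with h3 | h3
  · exact kap_ne u.2 h3 du dv
  · exact fun h4 => kap_ne v.2 h3 dv du h4.symm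

theorem drawable : Drawable G := drawable_of_run h1

theorem far : Far G 3 := dist_main h1 h2

theorem not_col : ¬ G.Colorable 3 := not_colorable h1 xx h3 h4

end Pool.Agent.HavelNB.G44
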