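import Pool.Agent.Lib.MP_8e2345_co.NB.Basic

set_option autoImplicit false

namespace Pool.Agent.HavelNB

open SimpleGraph

variable {V : Type*} {G : SimpleGraph V}

theorem z2_ne (x : ZMod 2) : x + 1 ≠ x := by
  revert x; decide

theorem z2_ne' (x : ZMod 2) : x ≠ x + 1 := by
  revert x; decide

theorem z2_add (x : ZMod 2) : x + 1 + 1 = x := by
  revert x; decide

open Classical in
/-- The colouring. -/
theorem colorable_of_loc [Fintype V] (h4 : Far G 4) (I : Set V)
    (hI : ∀ x ∈ I, ∀ y ∈ I, ¬ G.Adj x y)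
    (hI4 : ∀ x ∈ I, ∀ T : Finset V, G.IsNClique 3 T → ∀ t ∈ T, (4 : ℕ∞) ≤ G.edist x t)
    (κ : V → Prop)
    (hκ : ∀ u v, G.Adj u v → ¬ Tri G u → ¬ Tri G v → u ∉ I → v ∉ I → (κ u ↔ ¬ κ v))
    (a b c : Finset V → V) (W E : Finset V → Set V)
    (L : ∀ T : Finset V, G.IsNClique 3 T → Loc G κ T (a T) (b T) (c T) (W T) (E T)) :
    G.Colorable 3 := by
  -- near triangles
  have Inb : ∀ x ∈ I, ∀ T : Finset V, G.IsNClique 3 T → ¬ Nb G T x := by
    intro x hx T hT h
    rcases h with h | ⟨t, ht, h⟩
    · have h1 := hI4 x hx T hT x h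
      simp at h1
    · have h1 := (hI4 x hx T hT t ht).trans (edist_le_one h.symm)
      exact absurd h1 (by decide)
  have Inb1 : ∀ x ∈ I, ∀ y, G.Adj x y → ∀ T : Finset V, G.IsNClique 3 T → ¬ Nb G T y := by
    intro x hx y hxy T hT h
    rcases h with h | ⟨t, ht, h⟩
    · have h1 := (hI4 x hx T hT y h).trans (edist_le_one hxy)
      exact absurd h1 (by decide)
    · have h1 := (hI4 x hx T hT t ht).trans (edist_le_two hxy h.symm)
      exact absurd h1 (by decide)
  have Inb2 : ∀ x ∈ I, ∀ y z, G.Adj x y → G.Adj y z → ∀ T : Finset V, G.IsNClique 3 T →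
      ¬ Nb G T z := by
    intro x hx y z hxy hyz T hT h
    rcases h with h | ⟨t, ht, h⟩
    · have h1 := (hI4 x hx T hT z h).trans (edist_le_two hxy hyz)
      exact absurd h1 (by decide)
    · have h1 := (hI4 x hx T hT t ht).trans (edist_le_three hxy hyz h.symm)
      exact absurd h1 (by decide)
  -- the boundary of W is near T
  have Snb : ∀ T : Finset V, G.IsNClique 3 T → ∀ v, v = a T ∨ v = c T ∨ v ∈ E T → Nb G T v := by
    intro T hT v hv
    have hL := L T hT
    rcases hv with rfl | rfl | hv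
    · exact Or.inl hL.ha
    · exact Or.inl hL.hc
    · rcases (hL.hE v hv).2.2 with h | h
      · exact Or.inr ⟨_, hL.ha, h.1⟩
      · exact Or.inr ⟨_, hL.hc, h.1⟩
  have Wiff : ∀ T : Finset V, G.IsNClique 3 T → ∀ u v, G.Adj u v →
      ¬ (u = a T ∨ u = c T ∨ u ∈ E T) → ¬ (v = a T ∨ v = c T ∨ v ∈ E T) →
      (u ∈ W T ↔ v ∈ W T) := by
    intro T hT u v h hu hv
    have hL := L T hT
    constructor
    · intro h1
      by_contra h2
      exact hv (hL.hbd u v h h1 h2)
    · intro h1
      by_contra h2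
      exact hu (hL.hbd v u h.symm h1 h2)
  let g : V → Finset V → ZMod 2 := fun v T => if G.IsNClique 3 T ∧ v ∈ W T then 1 else 0
  let f : V → ZMod 2 := fun v => ∑ T : Finset V, g v T
  have geq : ∀ T u v, (G.IsNClique 3 T → (u ∈ W T ↔ v ∈ W T)) → g u T = g v T := by
    intro T u v h
    simp only [g]
    by_cases hT : G.IsNClique 3 T
    · simp only [h hT]
    · simp only [hT, false_and]
  have feq : ∀ u v, (∀ T, G.IsNClique 3 T → (u ∈ W T ↔ v ∈ W T)) → f u = f v := by
    intro u v h
    exact Finset.sum_congr rfl fun T _ => geq T u v (h T)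
  have feq1 : ∀ u v T0, G.IsNClique 3 T0 → (∀ T, G.IsNClique 3 T → T ≠ T0 → (u ∈ W T ↔ v ∈ W T)) →
      u ∉ W T0 → v ∈ W T0 → f v = f u + 1 := by
    intro u v T0 hT0 h hu hv
    have e1 : f v = g v T0 + ∑ T ∈ Finset.univ.erase T0, g v T :=
      (Finset.add_sum_erase _ _ (Finset.mem_univ T0)).symm
    have e2 : f u = g u T0 + ∑ T ∈ Finset.univ.erase T0, g u T :=
      (Finset.add_sum_erase _ _ (Finset.mem_univ T0)).symm
    have e3 : ∑ T ∈ Finset.univ.erase T0, g v T = ∑ T ∈ Finset.univ.erase T0, g u T := by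
      refine Finset.sum_congr rfl fun T hT => ?_
      exact (geq T u v fun h1 => h T h1 (Finset.ne_of_mem_erase hT)).symm
    have e4 : g v T0 = 1 := by simp only [g, hT0, hv, and_self, if_true]
    have e5 : g u T0 = 0 := by simp only [g, hu, and_false, if_false]
    rw [e1, e2, e3, e4, e5, zero_add, add_comm]
  -- adjacent vertices, one near T0
  have same : ∀ T0, G.IsNClique 3 T0 → ∀ u v, Nb G T0 u → G.Adj u v →
      ∀ T, G.IsNClique 3 T → T ≠ T0 → (u ∈ W T ↔ v ∈ W T) := by
    intro T0 hT0 u v hu h T hT hne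
    refine Wiff T hT u v h ?_ ?_
    · intro h1
      exact hne (eq_of_nb_nb h4 hT hT0 (Snb T hT u h1) hu)
    · intro h1
      exact hne (eq_of_nb_adj_nb h4 hT hT0 (Snb T hT v h1) hu h.symm)
  let flp : V → Prop := fun v => ∃ T : Finset V, G.IsNClique 3 T ∧ (G.Adj (b T) v ∨
    (∃ w, κ w ∧ ¬ Tri G w ∧ G.Adj (c T) w ∧ G.Adj w v) ∨ (G.Adj (a T) v ∧ v ∈ W T))
  let φ : V → Option (ZMod 2) := fun v =>
    if ∃ T : Finset V, G.IsNClique 3 T ∧ v = c T then none
    else if ∃ T : Finset V, G.IsNClique 3 T ∧ v = a T then some (f v + 1)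
    else if ∃ T : Finset V, G.IsNClique 3 T ∧ v = b T then some (f v)
    else if v ∈ I then some (f v + 1)
    else if κ v then (if ∃ T : Finset V, G.IsNClique 3 T ∧ G.Adj (c T) v then some (f v) else none)
    else if flp v then some (f v + 1) else some (f v)
  have φc : ∀ T, G.IsNClique 3 T → φ (c T) = none := by
    intro T hT
    simp only [φ]
    rw [if_pos ⟨T, hT, rfl⟩]
  have φa : ∀ T, G.IsNClique 3 T → φ (a T) = some (f (a T) + 1) := by
    intro T hT
    simp only [φ]
    rw [if_neg, if_pos ⟨T, hT, rfl⟩]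
    rintro ⟨T', hT', h⟩
    have : T = T' := eq_of_mem h4 hT hT' (L T hT).ha (h ▸ (L T' hT').hc)
    subst this
    exact (L T hT).hac h
  have φb : ∀ T, G.IsNClique 3 T → φ (b T) = some (f (b T)) := by
    intro T hT
    simp only [φ]
    rw [if_neg, if_neg, if_pos ⟨T, hT, rfl⟩]
    · rintro ⟨T', hT', h⟩
      have : T = T' := eq_of_mem h4 hT hT' (L T hT).hb (h ▸ (L T' hT').ha)
      subst this
      exact (L T hT).hab h.symm
    · rintro ⟨T', hT', h⟩
      have : T = T' := eq_of_mem h4 hT hT' (L T hT).hb (h ▸ (L T' hT').hc)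
      subst this
      exact (L T hT).hbc h
  have φn : ∀ v, ¬ Tri G v → φ v = if v ∈ I then some (f v + 1)
    else if κ v then (if ∃ T : Finset V, G.IsNClique 3 T ∧ G.Adj (c T) v then some (f v) else none)
    else if flp v then some (f v + 1) else some (f v) := by
    intro v hv
    simp only [φ]
    rw [if_neg, if_neg, if_neg]
    · rintro ⟨T, hT, h⟩; exact hv ⟨T, hT, h ▸ (L T hT).hb⟩
    · rintro ⟨T, hT, h⟩; exact hv ⟨T, hT, h ▸ (L T hT).ha⟩
    · rintro ⟨T, hT, h⟩; exact hv ⟨T, hT, h ▸ (L T hT).hc⟩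
  have φI : ∀ v, ¬ Tri G v → v ∈ I → φ v = some (f v + 1) := by
    intro v h1 h2; rw [φn v h1, if_pos h2]
  have φ1c : ∀ v, ¬ Tri G v → v ∉ I → κ v → (∃ T : Finset V, G.IsNClique 3 T ∧ G.Adj (c T) v) →
      φ v = some (f v) := by
    intro v h1 h2 h3 h4; rw [φn v h1, if_neg h2, if_pos h3, if_pos h4]
  have φ1 : ∀ v, ¬ Tri G v → v ∉ I → κ v → (¬ ∃ T : Finset V, G.IsNClique 3 T ∧ G.Adj (c T) v) →
      φ v = none := by
    intro v h1 h2 h3 h4; rw [φn v h1, if_neg h2, if_pos h3, if_neg h4]
  have φ0f : ∀ v, ¬ Tri G v → v ∉ I → ¬ κ v → flp v → φ v = some (f v + 1) := by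
    intro v h1 h2 h3 h4; rw [φn v h1, if_neg h2, if_neg h3, if_pos h4]
  have φ0 : ∀ v, ¬ Tri G v → v ∉ I → ¬ κ v → ¬ flp v → φ v = some (f v) := by
    intro v h1 h2 h3 h4; rw [φn v h1, if_neg h2, if_neg h3, if_neg h4]
  -- inside a triangle
  have fab : ∀ T, G.IsNClique 3 T → f (a T) = f (b T) := by
    intro T hT
    have hL := L T hT
    refine feq _ _ fun T' hT' => ?_
    by_cases h : T' = T
    · subst h
      exact iff_of_false (hL.hTW _ hL.ha) (hL.hTW _ hL.hb)
    · exact same T hT _ _ (Or.inl hL.ha) (adj_of_mem hT hL.ha hL.hb hL.hab) T' hT' h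
  -- triangle and outside
  have mixed : ∀ u v, G.Adj u v → Tri G u → ¬ Tri G v → φ u ≠ φ v := by
    rintro u v h ⟨T, hT, hu⟩ hv
    have hL := L T hT
    have hvI : v ∉ I := fun hvI => Inb v hvI T hT (Or.inr ⟨u, hu, h⟩)
    have hvT : v ∉ T := fun h1 => hv ⟨T, hT, h1⟩
    have nbv : Nb G T v := Or.inr ⟨u, hu, h⟩
    -- v has a unique neighbour in T
    have uniq : ∀ t ∈ T, G.Adj t v → t = u := by
      intro t ht h1
      by_contra hne
      exact hv (tri_of_two hT ht hu hne h1.symm h.symm)
    have noC : u ≠ c T → ¬ ∃ T' : Finset V, G.IsNClique 3 T' ∧ G.Adj (c T') v := by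
      rintro h1 ⟨T', hT', h2⟩
      have : T' = T := eq_of_nb_nb h4 hT' hT (Or.inr ⟨_, (L T' hT').hc, h2⟩) nbv
      subst this
      exact h1 (uniq _ hL.hc h2).symm
    rcases hL.hall u hu with rfl | rfl | rfl
    · -- a
      rw [φa T hT]
      by_cases hk : κ v
      · rw [φ1 v hv hvI hk (noC hL.hac)]; simp
      · by_cases hW : v ∈ W T
        · rw [φ0f v hv hvI hk ⟨T, hT, Or.inr (Or.inr ⟨h, hW⟩)⟩]
          have e := feq1 (a T) v T hT (same T hT _ _ (Or.inl hL.ha) h) (hL.hTW _ hL.ha) hW
          rw [e]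
          intro h1
          exact z2_ne' _ (Option.some_injective _ h1)
        · have hnf : ¬ flp v := by
            rintro ⟨T', hT', h1 | ⟨w, h1, h2, h3, h5⟩ | ⟨h1, h2⟩⟩
            · have : T' = T := eq_of_nb_nb h4 hT' hT (Or.inr ⟨_, (L T' hT').hb, h1⟩) nbv
              subst this
              exact hL.hab (uniq _ hL.hb h1).symm
            · have : T' = T := eq_of_nb_adj_nb h4 hT' hT (Or.inr ⟨_, (L T' hT').hc, h3⟩) nbv h5
              subst this
              exact hW (hL.hr v w h hvT hk h5.symm h1 (fun h6 => h2 ⟨T', hT', h6⟩) h3.symm)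
            · have : T' = T := eq_of_nb_nb h4 hT' hT (Or.inr ⟨_, (L T' hT').ha, h1⟩) nbv
              subst this
              exact hW h2
          rw [φ0 v hv hvI hk hnf]
          have e : f (a T) = f v := by
            refine feq _ _ fun T' hT' => ?_
            by_cases h1 : T' = T
            · subst h1
              exact iff_of_false (hL.hTW _ hL.ha) hW
            · exact same T hT _ _ (Or.inl hL.ha) h T' hT' h1
          rw [e]
          intro h1
          exact z2_ne _ (Option.some_injective _ h1)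
    · -- b
      rw [φb T hT]
      by_cases hk : κ v
      · rw [φ1 v hv hvI hk (noC hL.hbc)]; simp
      · rw [φ0f v hv hvI hk ⟨T, hT, Or.inl h⟩]
        have e : f (b T) = f v := by
          refine feq _ _ fun T' hT' => ?_
          by_cases h1 : T' = T
          · subst h1
            refine Wiff T' hT' _ _ h ?_ ?_
            · rintro (h1 | h1 | h1)
              · exact hL.hab h1.symm
              · exact hL.hbc h1
              · exact (hL.hE _ h1).1 hL.hb
            · rintro (h1 | h1 | h1)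
              · exact hvT (h1 ▸ hL.ha)
              · exact hvT (h1 ▸ hL.hc)
              · rcases (hL.hE _ h1).2.2 with h2 | h2
                · exact hk h2.2
                · exact hL.hbc (uniq _ hL.hc h2.1).symm
          · exact same T hT _ _ (Or.inl hL.hb) h T' hT' h1
        rw [e]
        intro h1
        exact z2_ne' _ (Option.some_injective _ h1)
    · -- c
      rw [φc T hT]
      by_cases hk : κ v
      · rw [φ1c v hv hvI hk ⟨T, hT, h⟩]; simp
      · by_cases hf : flp v
        · rw [φ0f v hv hvI hk hf]; simp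
        · rw [φ0 v hv hvI hk hf]; simp
  -- I and outside
  have caseI : ∀ u v, G.Adj u v → ¬ Tri G u → ¬ Tri G v → u ∈ I → φ u ≠ φ v := by
    intro u v h hu hv huI
    have hvI : v ∉ I := fun hvI => hI u huI v hvI h
    rw [φI u hu huI]
    by_cases hk : κ v
    · rw [φ1 v hv hvI hk]
      · simp
      · rintro ⟨T, hT, h1⟩
        exact Inb1 u huI v h T hT (Or.inr ⟨_, (L T hT).hc, h1⟩)
    · rw [φ0 v hv hvI hk]
      · have e : f u = f v := by
          refine feq _ _ fun T hT => Wiff T hT u v h ?_ ?_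
          · intro h1; exact Inb u huI T hT (Snb T hT u h1)
          · intro h1; exact Inb1 u huI v h T hT (Snb T hT v h1)
        rw [e]
        intro h1
        exact z2_ne _ (Option.some_injective _ h1)
      · rintro ⟨T, hT, h1 | ⟨w, _, _, h3, h5⟩ | ⟨h1, _⟩⟩
        · exact Inb1 u huI v h T hT (Or.inr ⟨_, (L T hT).hb, h1⟩)
        · exact Inb2 u huI v w h h5.symm T hT (Or.inr ⟨_, (L T hT).hc, h3⟩)
        · exact Inb1 u huI v h T hT (Or.inr ⟨_, (L T hT).ha, h1⟩)
  -- class 1 and class 0
  have case10 : ∀ u v, G.Adj u v → ¬ Tri G u → ¬ Tri G v → u ∉ I → v ∉ I → κ u → ¬ κ v →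
      φ u ≠ φ v := by
    intro u v h hu hv huI hvI hku hkv
    by_cases hc : ∃ T : Finset V, G.IsNClique 3 T ∧ G.Adj (c T) u
    · rw [φ1c u hu huI hku hc]
      obtain ⟨T, hT, h1⟩ := hc
      have hL := L T hT
      rw [φ0f v hv hvI hkv ⟨T, hT, Or.inr (Or.inl ⟨u, hku, hu, h1, h⟩)⟩]
      have huT : u ∉ T := fun h2 => hu ⟨T, hT, h2⟩
      have hvT : v ∉ T := fun h2 => hv ⟨T, hT, h2⟩
      have e : f u = f v := by
        refine feq _ _ fun T' hT' => ?_
        by_cases h2 : T' = T
        · subst h2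
          refine Wiff T' hT' _ _ h ?_ ?_
          · rintro (h2 | h2 | h2)
            · exact huT (h2 ▸ hL.ha)
            · exact huT (h2 ▸ hL.hc)
            · rcases (hL.hE _ h2).2.2 with h3 | h3
              · exact hu (tri_of_two hT' hL.ha hL.hc hL.hac h3.1.symm h1.symm)
              · exact h3.2 hku
          · rintro (h2 | h2 | h2)
            · exact hvT (h2 ▸ hL.ha)
            · exact hvT (h2 ▸ hL.hc)
            · rcases (hL.hE _ h2).2.2 with h3 | h3
              · exact hkv h3.2
              · -- v and u are adjacent neighbours of c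
                exact hu ⟨{u, v, c T'}, by
                  rw [is3Clique_iff]
                  exact ⟨u, v, c T', h, h1.symm, h3.1.symm, rfl⟩, by simp⟩
        · exact same T hT _ _ (Or.inr ⟨_, hL.hc, h1⟩) h T' hT' h2
      rw [e]
      intro h2
      exact z2_ne' _ (Option.some_injective _ h2)
    · rw [φ1 u hu huI hku hc]
      by_cases hf : flp v
      · rw [φ0f v hv hvI hkv hf]; simp
      · rw [φ0 v hv hvI hkv hf]; simp
  have valid : ∀ u v, G.Adj u v → φ u ≠ φ v := by
    intro u v h
    by_cases hu : Tri G u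
    · by_cases hv : Tri G v
      · obtain ⟨T, hT, huT⟩ := hu
        obtain ⟨T', hT', hvT⟩ := hv
        have : T = T' := eq_of_adj h4 hT hT' huT hvT h
        subst this
        have hL := L T hT
        have e := fab T hT
        rcases hL.hall u huT with rfl | rfl | rfl <;> rcases hL.hall v hvT with h1 | h1 | h1
        · exact absurd h1.symm h.ne
        · rw [h1, φa T hT, φb T hT, e]
          intro h2
          exact z2_ne _ (Option.some_injective _ h2)
        · rw [h1, φa T hT, φc T hT]; simp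
        · rw [h1, φa T hT, φb T hT, e]
          intro h2
          exact z2_ne' _ (Option.some_injective _ h2)
        · exact absurd h1.symm h.ne
        · rw [h1, φb T hT, φc T hT]; simp
        · rw [h1, φa T hT, φc T hT]; simp
        · rw [h1, φb T hT, φc T hT]; simp
        · exact absurd h1.symm h.ne
      · exact mixed u v h hu hv
    · by_cases hv : Tri G v
      · exact (mixed v u h.symm hv hu).symm
      · by_cases huI : u ∈ I
        · exact caseI u v h hu hv huI
        · by_cases hvI : v ∈ I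
          · exact (caseI v u h.symm hv hu hvI).symm
          · by_cases hk : κ u
            · exact case10 u v h hu hv huI hvI hk ((hκ u v h hu hv huI hvI).1 hk)
            · have hkv : κ v := by
                by_contra h1
                exact hk ((hκ u v h hu hv huI hvI).2 h1)
              exact (case10 v u h.symm hv hu hvI huI hkv hk).symm
  have : G.Coloring (Option (ZMod 2)) := Coloring.mk φ fun {u v} h => valid u v h
  have h3 := this.colorable
  simpa using h3

end Pool.Agent.HavelNB
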