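import Mathlib
import Pool.Agent.Lib.MP_8e2345_co.DR.Cert

set_option autoImplicit false
set_option maxRecDepth 100000

namespace Pool.Agent.HavelNB.G44

open Pool.Agent.Havel

def x0 : X := (X.j [(43,.r),(22,.r),(30,.l),(31,.b),(35,.b)] (X.j [(30,.l),(31,.r),(35,.l),(32,.pb)] (X.j [(30,.l),(35,.r),(32,.l),(34,.pb)] (X.j [(30,.l),(32,.b),(34,.b)] (X.j [(30,.r),(32,.l),(34,.l),(33,.pb)] (X.j [(32,.l),(34,.r),(33,.b)] (X.e 32 33) (X.f 33 34)) (X.e 30 33)) (X.e 32 34)) (X.f 34 35)) (X.e 31 32)) (X.j [(43,.r),(22,.r),(31,.l),(35,.l),(37,.pb)] (X.j [(31,.r),(35,.l),(37,.l),(36,.pb)] (X.j [(35,.l),(37,.r),(36,.b)] (X.e 35 36) (X.f 36 37)) (X.e 31 36)) (X.j [(43,.l),(22,.r),(37,.l),(41,.pb)] (X.j [(43,.l),(37,.b),(41,.b)] (X.j [(43,.b),(37,.l),(41,.b),(39,.pb)] (X.j [(43,.r),(37,.b),(41,.l),(39,.b)]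 (X.j [(37,.l),(41,.l),(39,.r),(40,.pb)] (X.j [(37,.r),(41,.l),(40,.b)] (X.f 40 41) (X.e 37 40)) (X.e 39 40)) (X.j [(43,.l),(37,.l),(39,.r),(38,.pb)] (X.j [(43,.l),(37,.r),(38,.b)] (X.f 38 43) (X.e 37 38)) (X.f 38 39))) (X.j [(43,.l),(41,.l),(39,.r),(42,.pb)] (X.j [(43,.r),(41,.l),(42,.b)] (X.e 41 42) (X.f 42 43)) (X.e 39 42))) (X.e 37 41)) (X.e 22 41))))
def x1 : X := (X.j [(43,.b),(22,.b),(30,.r),(28,.pb)] (X.j [(43,.l),(22,.l),(28,.b),(24,.pb)] (X.j [(43,.r),(22,.l),(28,.l),(24,.b)] (X.j [(22,.b),(28,.b),(24,.l),(26,.pb)] (X.j [(22,.r),(28,.l),(24,.b),(26,.b)] (X.j [(28,.r),(24,.l),(26,.l),(25,.pb)] (X.j [(24,.l),(26,.r),(25,.b)] (X.e 24 25) (X.f 25 26)) (X.f 25 28)) (X.j [(22,.r),(24,.l),(26,.l),(23,.pb)] (X.j [(24,.l),(26,.r),(23,.b)] (X.f 23 24) (X.f 23 26)) (X.e 22 23))) (X.j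 [(22,.r),(28,.l),(26,.l),(27,.pb)] (X.j [(28,.r),(26,.l),(27,.b)] (X.e 26 27) (X.f 27 28)) (X.e 22 27))) (X.f 24 43)) (X.f 24 28)) (X.j [(43,.b),(22,.l),(30,.l),(28,.l),(31,.pb)] (X.j [(43,.r),(22,.r),(30,.b),(28,.l),(31,.b)] (X.j [(30,.l),(28,.l),(31,.r),(29,.pb)] (X.j [(30,.r),(28,.l),(29,.b)] (X.e 28 29) (X.f 29 30)) (X.f 29 31)) (X.j [(43,.l),(22,.b),(30,.l),(31,.l),(35,.pb)] x0 (X.e 22 35))) (X.f 31 43)))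
def x2 : X := (X.j [(21,.l),(0,.b),(17,.r),(9,.r),(7,.b)] (X.j [(21,.l),(0,.l),(7,.r),(6,.pb)] (X.j [(21,.l),(0,.l),(6,.b),(4,.pb)] (X.j [(21,.r),(0,.l),(6,.l),(4,.b)] (X.j [(0,.b),(6,.b),(4,.l),(3,.pb)] (X.j [(0,.r),(6,.l),(4,.b),(3,.b)] (X.j [(6,.r),(4,.l),(3,.l),(5,.pb)] (X.j [(4,.r),(3,.l),(5,.b)] (X.e 3 5) (X.e 4 5)) (X.f 5 6)) (X.j [(0,.l),(4,.r),(3,.l),(2,.pb)] (X.j [(0,.l),(3,.r),(2,.b)] (X.e 0 2) (X.f 2 3)) (X.f 2 4))) (X.j [(0,.l),(6,.r),(3,.l),(1,.pb)] (X.j [(0,.l),(3,.r),(1,.b)] (X.e 0 1) (X.f 1 3)) (X.f 1 6))) (X.f 4 21)) (X.f 4 6)) (X.f 6 7)) (X.j [(0,.l),(17,.l),(9,.l),(7,.r),(8,.pb)] (X.j [(0,.b),(17,.l),(9,.l),(8,.b)] (X.j [(0,.r),(17,.l),(9,.l),(8,.l),(13,.pb)] (X.j [(17,.r),(9,.b),(8,.l),(13,.b)] (X.j [(9,.l),(8,.r),(13,.l),(11,.pb)] (X.j [(9,.l),(13,.l),(11,.b),(10,.pb)]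 (X.j [(9,.r),(13,.l),(11,.l),(10,.b)] (X.j [(13,.r),(11,.l),(10,.l),(12,.pb)] (X.j [(11,.r),(10,.l),(12,.b)] (X.e 10 12) (X.e 11 12)) (X.f 12 13)) (X.e 9 10)) (X.f 10 11)) (X.e 8 11)) (X.j [(17,.r),(9,.l),(13,.l),(14,.pb)] (X.j [(9,.l),(13,.r),(14,.b)] (X.e 9 14) (X.e 13 14)) (X.f 14 17))) (X.e 0 13)) (X.e 0 8)) (X.e 7 8)))
def x3 : X := (X.j [(21,.b),(0,.pb)] (X.j [(21,.b),(0,.l),(43,.pb)] (X.j [(21,.l),(0,.b),(43,.b)] (X.j [(21,.r),(0,.l),(43,.l),(22,.pb)] (X.j [(0,.r),(43,.l),(22,.b)] (X.j [(43,.l),(22,.b),(30,.pb)] x1 (X.e 22 30)) (X.e 0 22)) (X.e 21 22)) (X.e 0 43)) (X.e 21 43)) (X.j [(21,.b),(0,.b),(17,.pb)] (X.j [(21,.l),(0,.l),(17,.b),(15,.pb)] (X.j [(21,.l),(0,.r),(17,.l),(15,.b)] (X.j [(21,.b),(17,.b),(15,.l),(19,.pb)] (X.j [(21,.r),(17,.l),(15,.b),(19,.b)] (X.j [(17,.l),(15,.r),(19,.l),(16,.pb)]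 (X.j [(17,.l),(19,.r),(16,.b)] (X.f 16 17) (X.f 16 19)) (X.e 15 16)) (X.j [(21,.l),(15,.r),(19,.l),(20,.pb)] (X.j [(21,.r),(19,.l),(20,.b)] (X.e 19 20) (X.f 20 21)) (X.e 15 20))) (X.j [(21,.r),(17,.l),(19,.l),(18,.pb)] (X.j [(17,.l),(19,.r),(18,.b)] (X.e 17 18) (X.f 18 19)) (X.f 18 21))) (X.e 0 15)) (X.f 15 17)) (X.j [(21,.b),(0,.l),(17,.l),(9,.pb)] (X.j [(21,.l),(0,.l),(17,.l),(9,.b),(7,.pb)] x2 (X.f 7 9)) (X.f 9 21))))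
def xx : X := x3
def dat_0 : BT (ℕ × List ℕ × ℕ × ℕ) := (.n (.n (.n (.n (.n (.n (.l (0,[43,22,2,1,8,13,15],2,1)) (.l (4,[34,33],4,0))) (.l (6,[17,19],2,0))) (.n (.n (.l (4,[11],1,1)) (.l (5,[41],5,0))) (.l (1,[43,28,25],3,0)))) (.n (.n (.n (.l (2,[21,6,5],0,0)) (.l (3,[37],5,1))) (.l (5,[21],2,1))) (.n (.l (5,[13],1,0)) (.l (2,[29],3,0))))) (.n (.n (.n (.n (.l (2,[4,3],0,1)) (.l (4,[35],4,0))) (.l (4,[21,19],2,1))) (.n (.n (.l (5,[12,11],1,0)) (.l (4,[43],5,1))) (.l (4,[27],3,1)))) (.n (.n (.n (.l (3,[7],0,0)) (.l (3,[43,39],5,1))) (.l (1,[23,27,30,35,41],5,1))) (.n (.l (4,[17],2,1)) (.l (3,[33],4,1)))))) (.n (.n (.n (.n (.n (.l (3,[3,6],0,1)) (.l (5,[34],4,0))) (.l (4,[18],2,0))) (.n (.n (.l (3,[21,14,10],1,1)) (.l (5,[42],5,0))) (.l (3,[28,26],3,0)))) (.n (.n (.n (.l (4,[6],0,0))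 (.l (3,[38,40,41],5,0))) (.l (2,[22,43],0,1))) (.n (.l (5,[14],1,1)) (.l (2,[31,30],3,1))))) (.n (.n (.n (.n (.l (3,[5],0,1)) (.l (4,[36],4,1))) (.l (5,[20],2,1))) (.n (.n (.l (6,[12],1,0)) (.l (0,[],3,1))) (.l (4,[28],3,1)))) (.n (.n (.n (.l (3,[9,8],0,1)) (.l (4,[42,40],5,1))) (.l (1,[24,26],3,1))) (.n (.l (5,[17,16,20],2,0)) (.l (2,[43,36,32],4,1)))))))
def dat : BT (ℕ × List ℕ × ℕ × ℕ) := dat_0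
def trs_0 : BT (ℕ × ℕ × ℕ) := (.n (.n (.n (.l (4,5,6)) (.l (32,33,34))) (.l (15,16,17))) (.n (.n (.l (10,11,12)) (.l (37,40,41))) (.l (24,25,28))))
def trs : BT (ℕ × ℕ × ℕ) := trs_0

def pos (i : ℕ) : ℕ := (dat.get i).1
def out (i : ℕ) : List ℕ := (dat.get i).2.1
def ow (i : ℕ) : ℕ := (dat.get i).2.2.1
def dd (i : ℕ) : ℕ := (dat.get i).2.2.2
def tr (i : ℕ) : ℕ × ℕ × ℕ := trs.get i

theorem h1 : run pos out 44 0 [] = true := by decide +kernel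
theorem h2 : dist 3 out ow dd tr 44 = true := by decide +kernel
theorem h3 : xx.ok 44 out = true := by decide +kernel
theorem h4 : xx.tr = T.no := by decide +kernel

end Pool.Agent.HavelNB.G44
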