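import Pool.Agent.Lib.MP_8e2345_co.NB.Split

set_option autoImplicit false

namespace Pool.Agent.HavelNB

open SimpleGraph

universe u

variable {V : Type u} {G : SimpleGraph V}

/-- `v` is a vertex of a triangle in `𝒯`. -/
def In (𝒯 : Set (Finset V)) (v : V) : Prop := ∃ T ∈ 𝒯, v ∈ T

theorem edist_le_two_iff {t v : V} : G.edist t v ≤ 2 ↔
    (t = v ∨ G.Adj t v ∨ ∃ u, G.Adj t u ∧ G.Adj u v) := by
  constructor
  · intro h
    have h1 : G.edist t v ≠ ⊤ := fun h2 => by
      rw [h2] at h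
      exact absurd h (by decide)
    obtain ⟨w, hw⟩ := exists_walk_of_edist_ne_top h1
    rw [← hw] at h
    have h2 : w.length ≤ 2 := by exact_mod_cast h
    cases w with
    | nil => exact Or.inl rfl
    | cons h3 w =>
      cases w with
      | nil => exact Or.inr (Or.inl h3)
      | cons h4 w =>
        cases w with
        | nil => exact Or.inr (Or.inr ⟨_, h3, h4⟩)
        | cons h5 w =>
          simp only [Walk.length_cons] at h2
          omega
  · rintro (rfl | h | ⟨u, h, h'⟩)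
    · simp
    · exact (edist_le_one h).trans (by decide)
    · exact edist_le_two h h'

/-- The colour `γ` is not used at distance at most `2` from `T`. -/
def Avoids (G : SimpleGraph V) (ψ : V → Fin 3) (T : Finset V) (γ : Fin 3) : Prop :=
  ∀ v, v ∉ T → (∃ t ∈ T, G.edist t v ≤ 2) → ψ v ≠ γ

/-- `ψ` is a colouring of the graph without the triangles in `𝒯`, with two colours near each of them. -/
structure Part (G : SimpleGraph V) (𝒯 : Set (Finset V)) (ψ : V → Fin 3) : Prop where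
  tri : ∀ T ∈ 𝒯, G.IsNClique 3 T
  proper : ∀ u v, G.Adj u v → ¬ In 𝒯 u → ¬ In 𝒯 v → ψ u ≠ ψ v
  flat : ∀ T ∈ 𝒯, ∃ γ, Avoids G ψ T γ

theorem Part.comp {𝒯 : Set (Finset V)} {ψ : V → Fin 3} (h : Part G 𝒯 ψ) (τ : Equiv.Perm (Fin 3)) :
    Part G 𝒯 (fun v => τ (ψ v)) := by
  refine ⟨h.tri, fun u v huv hu hv h1 => h.proper u v huv hu hv (τ.injective h1), ?_⟩
  intro T hT
  obtain ⟨γ, hγ⟩ := h.flat T hT
  exact ⟨τ γ, fun v hv hv2 h1 => hγ v hv hv2 (τ.injective h1)⟩

theorem fin3_cases {c : Fin 3} (h : c ≠ 2) : c = 0 ∨ c = 1 := by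
  revert h; revert c; decide

open Classical in
/-- One step: the triangle `T` is coloured. -/
theorem step (h4 : Far G 4) {𝒯 : Set (Finset V)} {ψ : V → Fin 3} (h : Part G 𝒯 ψ) {T : Finset V}
    (hT : T ∈ 𝒯) (h2 : Avoids G ψ T 2) {a b c : V} {W E : Set V}
    (hL : Loc G (fun v => ψ v = 1) T a b c W E) :
    ∃ ψ' : V → Fin 3, Part G (𝒯 \ {T}) ψ' := by
  have hTc : G.IsNClique 3 T := h.tri T hT
  -- near T
  have near : ∀ t ∈ T, ∀ v, v ∉ T → G.Adj t v → ψ v = 0 ∨ ψ v = 1 := fun t ht v hv htv =>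
    fin3_cases (h2 v hv ⟨t, ht, edist_le_two_iff.2 (Or.inr (Or.inl htv))⟩)
  have near2 : ∀ t ∈ T, ∀ v w, w ∉ T → G.Adj t v → G.Adj v w → ψ w = 0 ∨ ψ w = 1 :=
    fun t ht v w hw htv hvw =>
      fin3_cases (h2 w hw ⟨t, ht, edist_le_two_iff.2 (Or.inr (Or.inr ⟨v, htv, hvw⟩))⟩)
  -- a vertex outside of T has at most one neighbour in T
  have uniq : ∀ v, v ∉ T → ∀ t ∈ T, ∀ t' ∈ T, G.Adj t v → G.Adj t' v → t = t' := by
    intro v hv t ht t' ht' h1 h3
    by_contra hne
    exact no_common h4 hTc ht ht' hne hv h1 h3.symm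
  -- no triangle at a vertex of T
  have notri : ∀ t ∈ T, ∀ v w, v ∉ T → G.Adj t v → G.Adj t w → G.Adj v w → False := by
    intro t ht v w hv h1 h3 h5
    have h6 : G.IsNClique 3 {t, v, w} := by
      rw [is3Clique_iff]
      exact ⟨t, v, w, h1, h3, h5, rfl⟩
    have h7 : T = {t, v, w} := eq_of_mem h4 hTc h6 ht (by simp)
    exact hv (h7 ▸ by simp)
  -- E
  have Enb : ∀ v ∈ E, v ∉ T ∧ v ∉ W ∧ ((G.Adj a v ∧ ψ v = 1) ∨ (G.Adj c v ∧ ψ v = 0)) := by
    intro v hv
    obtain ⟨h1, h3, h5⟩ := hL.hE v hv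
    refine ⟨h1, h3, ?_⟩
    rcases h5 with h5 | h5
    · exact Or.inl h5
    · refine Or.inr ⟨h5.1, ?_⟩
      rcases near c hL.hc v h1 h5.1 with h6 | h6
      · exact h6
      · exact absurd h6 h5.2
  let ψ' : V → Fin 3 := fun v => if v = a then 0 else if v = c then 1 else if v = b then 2
    else if v ∈ W then (if G.Adj a v ∧ ψ v = 1 then 1 else ψ v + 2)
    else (if (v ∈ E ∧ ψ v = 0) ∨ (G.Adj a v ∧ ψ v = 0) ∨ (G.Adj c v ∧ ψ v = 1) then 2 else ψ v)
  have ea : ψ' a = 0 := by simp [ψ']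
  have ec : ψ' c = 1 := by simp [ψ', hL.hac.symm]
  have eb : ψ' b = 2 := by simp [ψ', hL.hab.symm, hL.hbc]
  have eo : ∀ v, v ∉ T → ψ' v = if v ∈ W then (if G.Adj a v ∧ ψ v = 1 then 1 else ψ v + 2)
      else (if (v ∈ E ∧ ψ v = 0) ∨ (G.Adj a v ∧ ψ v = 0) ∨ (G.Adj c v ∧ ψ v = 1) then 2
        else ψ v) := by
    intro v hv
    have h1 : v ≠ a := fun h3 => hv (h3 ▸ hL.ha)
    have h3 : v ≠ c := fun h3 => hv (h3 ▸ hL.hc)
    have h5 : v ≠ b := fun h3 => hv (h3 ▸ hL.hb)
    simp only [ψ', if_neg h1, if_neg h3, if_neg h5]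
  have eW1 : ∀ v, v ∉ T → v ∈ W → G.Adj a v → ψ v = 1 → ψ' v = 1 := by
    intro v hv hW h1 h3
    rw [eo v hv, if_pos hW, if_pos ⟨h1, h3⟩]
  have eW2 : ∀ v, v ∉ T → v ∈ W → ¬ (G.Adj a v ∧ ψ v = 1) → ψ' v = ψ v + 2 := by
    intro v hv hW h1
    rw [eo v hv, if_pos hW, if_neg h1]
  have eO1 : ∀ v, v ∉ T → v ∉ W →
      ((v ∈ E ∧ ψ v = 0) ∨ (G.Adj a v ∧ ψ v = 0) ∨ (G.Adj c v ∧ ψ v = 1)) → ψ' v = 2 := by
    intro v hv hW h1
    rw [eo v hv, if_neg hW, if_pos h1]
  have eO2 : ∀ v, v ∉ T → v ∉ W →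
      ¬ ((v ∈ E ∧ ψ v = 0) ∨ (G.Adj a v ∧ ψ v = 0) ∨ (G.Adj c v ∧ ψ v = 1)) → ψ' v = ψ v := by
    intro v hv hW h1
    rw [eo v hv, if_neg hW, if_neg h1]
  -- triangle and outside
  have mixed : ∀ t v, t ∈ T → v ∉ T → G.Adj t v → ψ' t ≠ ψ' v := by
    intro t v ht hv htv
    rcases hL.hall t ht with rfl | rfl | rfl
    · -- a
      rw [ea]
      rcases near _ ht v hv htv with h0 | h1
      · by_cases hW : v ∈ W
        · rw [eW2 v hv hW (fun h1 => by rw [h0] at h1; exact absurd h1.2 (by decide)), h0]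
          decide
        · rw [eO1 v hv hW (Or.inr (Or.inl ⟨htv, h0⟩))]; decide
      · by_cases hW : v ∈ W
        · rw [eW1 v hv hW htv h1]; decide
        · rw [eO2 v hv hW, h1]
          · decide
          · rintro (h3 | h3 | h3)
            · rw [h1] at h3; exact absurd h3.2 (by decide)
            · rw [h1] at h3; exact absurd h3.2 (by decide)
            · exact hL.hac (uniq v hv _ ht _ hL.hc htv h3.1)
    · -- b
      rw [eb]
      have hW : v ∉ W := by
        intro hW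
        rcases hL.hbd v t htv.symm hW (hL.hTW t ht) with h1 | h1 | h1
        · exact hL.hab h1.symm
        · exact hL.hbc h1
        · exact (Enb t h1).1 ht
      rw [eO2 v hv hW]
      · rcases near _ ht v hv htv with h0 | h1
        · rw [h0]; decide
        · rw [h1]; decide
      · rintro (h3 | h3 | h3)
        · rcases (Enb v h3.1).2.2 with h5 | h5
          · exact hL.hab (uniq v hv _ hL.ha _ ht h5.1 htv)
          · exact hL.hbc (uniq v hv _ ht _ hL.hc htv h5.1)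
        · exact hL.hab (uniq v hv _ hL.ha _ ht h3.1 htv)
        · exact hL.hbc (uniq v hv _ ht _ hL.hc htv h3.1)
    · -- c
      rw [ec]
      rcases near _ ht v hv htv with h0 | h1
      · by_cases hW : v ∈ W
        · rw [eW2 v hv hW (fun h1 => by rw [h0] at h1; exact absurd h1.2 (by decide)), h0]
          decide
        · by_cases h3 : (v ∈ E ∧ ψ v = 0) ∨ (G.Adj a v ∧ ψ v = 0) ∨ (G.Adj t v ∧ ψ v = 1)
          · rw [eO1 v hv hW h3]; decide
          · rw [eO2 v hv hW h3, h0]; decide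
      · by_cases hW : v ∈ W
        · rw [eW2 v hv hW (fun h3 => hL.hac (uniq v hv _ hL.ha _ ht h3.1 htv)), h1]
          decide
        · rw [eO1 v hv hW (Or.inr (Or.inr ⟨htv, h1⟩))]; decide
  -- flipped vertices outside of W: colour and position
  have flip : ∀ v, v ∉ T → ((v ∈ E ∧ ψ v = 0) ∨ (G.Adj a v ∧ ψ v = 0) ∨ (G.Adj c v ∧ ψ v = 1)) →
      (G.Adj c v ∧ ψ v = 0) ∨ (G.Adj a v ∧ ψ v = 0) ∨ (G.Adj c v ∧ ψ v = 1) := by
    intro v hv h1
    rcases h1 with h1 | h1 | h1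
    · rcases (Enb v h1.1).2.2 with h3 | h3
      · rw [h1.2] at h3; exact absurd h3.2 (by decide)
      · exact Or.inl h3
    · exact Or.inr (Or.inl h1)
    · exact Or.inr (Or.inr h1)
  have outer : ∀ v w, v ∉ T → w ∉ T → v ∉ W → w ∉ W → G.Adj v w → ψ v ≠ ψ w →
      ((v ∈ E ∧ ψ v = 0) ∨ (G.Adj a v ∧ ψ v = 0) ∨ (G.Adj c v ∧ ψ v = 1)) → ψ' v ≠ ψ' w := by
    intro v w hv hw hvW hwW hvw hne hf
    rw [eO1 v hv hvW hf]
    have hf1 := flip v hv hf
    have hw01 : ψ w = 0 ∨ ψ w = 1 := by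
      rcases hf1 with h1 | h1 | h1
      · exact near2 c hL.hc v w hw h1.1 hvw
      · exact near2 a hL.ha v w hw h1.1 hvw
      · exact near2 c hL.hc v w hw h1.1 hvw
    have hnf : ¬ ((w ∈ E ∧ ψ w = 0) ∨ (G.Adj a w ∧ ψ w = 0) ∨ (G.Adj c w ∧ ψ w = 1)) := by
      intro hg
      have hg1 := flip w hw hg
      rcases hf1 with h1 | h1 | h1 <;> rcases hg1 with h3 | h3 | h3
      · exact notri c hL.hc v w hv h1.1 h3.1 hvw
      · exact hne (h1.2.trans h3.2.symm)
      · exact notri c hL.hc v w hv h1.1 h3.1 hvw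
      · exact hne (h1.2.trans h3.2.symm)
      · exact hne (h1.2.trans h3.2.symm)
      · refine hvW (hL.hr v w h1.1 hv ?_ hvw h3.2 hw h3.1.symm)
        rw [h1.2]; decide
      · exact notri c hL.hc v w hv h1.1 h3.1 hvw
      · refine hwW (hL.hr w v h3.1 hw ?_ hvw.symm h1.2 hv h1.1.symm)
        rw [h3.2]; decide
      · exact hne (h1.2.trans h3.2.symm)
    rw [eO2 w hw hwW hnf]
    rcases hw01 with h1 | h1 <;> rw [h1] <;> decide
  have inner : ∀ v w, v ∉ T → w ∉ T → v ∈ W → w ∈ W → G.Adj v w → ψ v ≠ ψ w →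
      (G.Adj a v ∧ ψ v = 1) → ψ' v ≠ ψ' w := by
    intro v w hv hw hvW hwW hvw hne h1
    rw [eW1 v hv hvW h1.1 h1.2]
    have hw0 : ψ w = 0 := by
      rcases near2 a hL.ha v w hw h1.1 hvw with h3 | h3
      · exact h3
      · exact absurd (h1.2.trans h3.symm) hne
    rw [eW2 w hw hwW (fun h3 => by rw [hw0] at h3; exact absurd h3.2 (by decide)), hw0]
    decide
  have cross : ∀ v w, v ∉ T → w ∉ T → v ∈ W → w ∉ W → G.Adj v w → ψ v ≠ ψ w →
      ψ' v ≠ ψ' w := by
    intro v w hv hw hvW hwW hvw hne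
    have hwE : w ∈ E := by
      rcases hL.hbd v w hvw hvW hwW with h1 | h1 | h1
      · exact absurd (h1 ▸ hL.ha) hw
      · exact absurd (h1 ▸ hL.hc) hw
      · exact h1
    rcases (Enb w hwE).2.2 with h1 | h1
    · -- w = x
      have hv0 : ψ v = 0 := by
        rcases near2 a hL.ha w v hv h1.1 hvw.symm with h3 | h3
        · exact h3
        · exact absurd (h3.trans h1.2.symm) hne
      rw [eW2 v hv hvW (fun h3 => by rw [hv0] at h3; exact absurd h3.2 (by decide)), hv0,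
        eO2 w hw hwW, h1.2]
      · decide
      · rintro (h3 | h3 | h3)
        · rw [h1.2] at h3; exact absurd h3.2 (by decide)
        · rw [h1.2] at h3; exact absurd h3.2 (by decide)
        · exact hL.hac (uniq w hw _ hL.ha _ hL.hc h1.1 h3.1)
    · -- w = y
      have hv1 : ψ v = 1 := by
        rcases near2 c hL.hc w v hv h1.1 hvw.symm with h3 | h3
        · exact absurd (h3.trans h1.2.symm) hne
        · exact h3
      rw [eO1 w hw hwW (Or.inl ⟨hwE, h1.2⟩)]
      by_cases h3 : G.Adj a v ∧ ψ v = 1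
      · rw [eW1 v hv hvW h3.1 h3.2]; decide
      · rw [eW2 v hv hvW h3, hv1]; decide
  have plain : ∀ v w, v ∉ T → w ∉ T → G.Adj v w → ψ v ≠ ψ w → ψ' v ≠ ψ' w := by
    intro v w hv hw hvw hne
    by_cases hvW : v ∈ W
    · by_cases hwW : w ∈ W
      · by_cases h1 : G.Adj a v ∧ ψ v = 1
        · exact inner v w hv hw hvW hwW hvw hne h1
        · by_cases h3 : G.Adj a w ∧ ψ w = 1
          · exact (inner w v hw hv hwW hvW hvw.symm hne.symm h3).symm
          · rw [eW2 v hv hvW h1, eW2 w hw hwW h3]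
            intro h5
            exact hne (add_right_cancel h5)
      · exact cross v w hv hw hvW hwW hvw hne
    · by_cases hwW : w ∈ W
      · exact (cross w v hw hv hwW hvW hvw.symm hne.symm).symm
      · by_cases h1 : (v ∈ E ∧ ψ v = 0) ∨ (G.Adj a v ∧ ψ v = 0) ∨ (G.Adj c v ∧ ψ v = 1)
        · exact outer v w hv hw hvW hwW hvw hne h1
        · by_cases h3 : (w ∈ E ∧ ψ w = 0) ∨ (G.Adj a w ∧ ψ w = 0) ∨ (G.Adj c w ∧ ψ w = 1)
          · exact (outer w v hw hv hwW hvW hvw.symm hne.symm h3).symm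
          · rw [eO2 v hv hvW h1, eO2 w hw hwW h3]
            exact hne
  refine ⟨ψ', fun T' hT' => h.tri T' hT'.1, ?_, ?_⟩
  · intro v w hvw hv hw
    by_cases hvT : v ∈ T
    · by_cases hwT : w ∈ T
      · have e1 := hL.hall v hvT
        have e2 := hL.hall w hwT
        rcases e1 with e1 | e1 | e1 <;> rcases e2 with e2 | e2 | e2 <;> rw [e1, e2]
        · exact absurd (e1.trans e2.symm) hvw.ne
        · rw [ea, eb]; decide
        · rw [ea, ec]; decide
        · rw [ea, eb]; decide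
        · exact absurd (e1.trans e2.symm) hvw.ne
        · rw [eb, ec]; decide
        · rw [ea, ec]; decide
        · rw [eb, ec]; decide
        · exact absurd (e1.trans e2.symm) hvw.ne
      · exact mixed v w hvT hwT hvw
    · by_cases hwT : w ∈ T
      · exact (mixed w v hwT hvT hvw.symm).symm
      · refine plain v w hvT hwT hvw (h.proper v w hvw ?_ ?_)
        · rintro ⟨T', hT', hv'⟩
          refine hv ⟨T', ⟨hT', ?_⟩, hv'⟩
          rintro rfl
          exact hvT hv'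
        · rintro ⟨T', hT', hw'⟩
          refine hw ⟨T', ⟨hT', ?_⟩, hw'⟩
          rintro rfl
          exact hwT hw'
  · rintro T' ⟨hT', hne⟩
    have hTT : T' ≠ T := hne
    have hT'c := h.tri T' hT'
    obtain ⟨γ, hγ⟩ := h.flat T' hT'
    -- vertices at distance at most 2 from T' are not near T
    have farN : ∀ t' ∈ T', ∀ v, G.edist t' v ≤ 2 → ¬ Nb G T v := by
      intro t' ht' v hv hnb
      refine hTT ?_
      rcases hnb with h1 | ⟨t, ht, h1⟩
      · exact eq_of_edist_le_three h4 hT'c hTc ht' h1 (hv.trans (by decide))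
      · refine eq_of_edist_le_three h4 hT'c hTc ht' ht ?_
        have h3 := G.edist_triangle (u := t') (v := v) (w := t)
        have h5 : G.edist v t ≤ 1 := edist_le_one h1.symm
        refine h3.trans ?_
        calc G.edist t' v + G.edist v t ≤ 2 + 1 := add_le_add hv h5
          _ = 3 := by decide
    have bdN : ∀ v, v = a ∨ v = c ∨ v ∈ E → Nb G T v := by
      rintro v (rfl | rfl | hv)
      · exact Or.inl hL.ha
      · exact Or.inl hL.hc
      · rcases (Enb v hv).2.2 with h1 | h1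
        · exact Or.inr ⟨_, hL.ha, h1.1⟩
        · exact Or.inr ⟨_, hL.hc, h1.1⟩
    have Wadj : ∀ v w, G.Adj v w → ¬ Nb G T v → ¬ Nb G T w → (v ∈ W ↔ w ∈ W) := by
      intro v w hvw hv hw
      constructor
      · intro h1
        by_contra h3
        exact hw (bdN w (hL.hbd v w hvw h1 h3))
      · intro h1
        by_contra h3
        exact hv (bdN v (hL.hbd w v hvw.symm h1 h3))
    have same : ∀ t' ∈ T', ∀ v, G.edist t' v ≤ 2 → (t' ∈ W ↔ v ∈ W) := by
      intro t' ht' v hv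
      have h0 := farN t' ht' t' (by simp)
      rcases edist_le_two_iff.1 hv with h1 | h1 | ⟨u, h1, h3⟩
      · rw [h1]
      · exact Wadj t' v h1 h0 (farN t' ht' v hv)
      · have hu : G.edist t' u ≤ 2 := (edist_le_one h1).trans (by decide)
        exact (Wadj t' u h1 h0 (farN t' ht' u hu)).trans
          (Wadj u v h3 (farN t' ht' u hu) (farN t' ht' v hv))
    have val : ∀ v, ¬ Nb G T v → ψ' v = if v ∈ W then ψ v + 2 else ψ v := by
      intro v hv
      have hvT : v ∉ T := fun h1 => hv (Or.inl h1)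
      have ha : ¬ G.Adj a v := fun h1 => hv (Or.inr ⟨a, hL.ha, h1⟩)
      have hc : ¬ G.Adj c v := fun h1 => hv (Or.inr ⟨c, hL.hc, h1⟩)
      have hE : v ∉ E := fun h1 => hv (bdN v (Or.inr (Or.inr h1)))
      rw [eo v hvT]
      simp only [ha, hc, hE, false_and, or_self, if_false]
    obtain ⟨t0, ht0⟩ : T'.Nonempty := by
      rw [← Finset.card_pos, hT'c.card_eq]; norm_num
    have allsame : ∀ t' ∈ T', (t' ∈ W ↔ t0 ∈ W) := by
      intro t' ht'
      by_cases h1 : t' = t0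
      · rw [h1]
      · exact same t' ht' t0 ((edist_le_one (adj_of_mem hT'c ht' ht0 h1)).trans (by decide))
    by_cases hW : t0 ∈ W
    · refine ⟨γ + 2, ?_⟩
      rintro v hv ⟨t', ht', hd⟩ h1
      have hvW : v ∈ W := (same t' ht' v hd).1 ((allsame t' ht').2 hW)
      rw [val v (farN t' ht' v hd), if_pos hvW] at h1
      exact hγ v hv ⟨t', ht', hd⟩ (add_right_cancel h1)
    · refine ⟨γ, ?_⟩
      rintro v hv ⟨t', ht', hd⟩ h1
      have hvW : v ∉ W := fun h3 => hW ((allsame t' ht').1 ((same t' ht' v hd).2 h3))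
      rw [val v (farN t' ht' v hd), if_neg hvW] at h1
      exact hγ v hv ⟨t', ht', hd⟩ h1

/-- The case without separating triangles. -/
theorem colorable_of_part [Fintype V] (hG : Planar G) (h4 : Far G 4)
    (hsep : ∀ T : Finset V, G.IsNClique 3 T → ∀ u v, u ∉ T → v ∉ T → Rch G (T : Set V) u v) :
    ∀ (n : ℕ) (𝒯 : Set (Finset V)) (ψ : V → Fin 3), 𝒯.ncard = n → Part G 𝒯 ψ →
      G.Colorable 3 := by
  classical
  intro n
  induction n with
  | zero =>
    intro 𝒯 ψ hn h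
    have he : 𝒯 = ∅ := (Set.ncard_eq_zero (Set.toFinite _)).1 hn
    subst he
    exact ⟨Coloring.mk ψ fun {u v} huv => h.proper u v huv (by simp [In]) (by simp [In])⟩
  | succ n ih =>
    intro 𝒯 ψ hn h
    obtain ⟨T, hT⟩ : 𝒯.Nonempty := Set.nonempty_of_ncard_ne_zero (by omega)
    obtain ⟨γ, hγ⟩ := h.flat T hT
    let τ : Equiv.Perm (Fin 3) := Equiv.swap γ 2
    have h1 := h.comp τ
    have h2 : Avoids G (fun v => τ (ψ v)) T 2 := by
      intro v hv hd h3
      refine hγ v hv hd (τ.injective ?_)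
      rw [Equiv.swap_apply_left]
      exact h3
    obtain ⟨a, b, c, W, E, hL⟩ := exists_loc hG h4 (fun v => τ (ψ v) = 1) (h.tri T hT)
      (hsep T (h.tri T hT))
    obtain ⟨ψ', h'⟩ := step h4 h1 hT h2 hL
    refine ih (𝒯 \ {T}) ψ' ?_ h'
    rw [Set.ncard_diff_singleton_of_mem hT]
    omega

end Pool.Agent.HavelNB
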