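import Pool.Agent.Lib.MP_8e2345_co.NB.Ext

set_option autoImplicit false

namespace Pool.Agent.HavelNB

open SimpleGraph

universe u

variable {V : Type u} {G : SimpleGraph V}

/-- The triangles of `𝒯` inside `s`. -/
def restr (s : Set V) (𝒯 : Set (Finset V)) : Set (Finset s) :=
  {T | T.map (Function.Embedding.subtype _) ∈ 𝒯}

theorem planar_induce (h : Planar G) (s : Set V) : Planar (G.induce s) :=
  ⟨fun h1 => h.1 (hasMinor_of_induce h1), fun h1 => h.2 (hasMinor_of_induce h1)⟩

theorem far_induce {d : ℕ∞} (h : Far G d) (s : Set V) : Far (G.induce s) d := by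
  intro A B hA hB hne a ha b hb
  refine (h _ _ (clique_map hA) (clique_map hB) ?_ a ?_ b ?_).trans (edist_induce_le a b)
  · intro h1
    exact hne (Finset.map_injective _ h1)
  · exact Finset.mem_map_of_mem (Function.Embedding.subtype _) ha
  · exact Finset.mem_map_of_mem (Function.Embedding.subtype _) hb

theorem Part.induce {𝒯 : Set (Finset V)} {ψ : V → Fin 3} (h : Part G 𝒯 ψ) {s : Set V}
    (hs : Closed G s) : Part (G.induce s) (restr s 𝒯) (fun x => ψ x) := by
  classical
  have hin : ∀ v : s, In 𝒯 (v : V) → In (restr s 𝒯) v := by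
    rintro v ⟨T, hT, hv⟩
    have hsub : ∀ w ∈ T, w ∈ s := hs T (h.tri T hT) v hv v.2
    refine ⟨T.subtype (· ∈ s), ?_, by simpa using hv⟩
    have e : (T.subtype (· ∈ s)).map (Function.Embedding.subtype (· ∈ s)) = T := by
      rw [Finset.subtype_map, Finset.filter_true_of_mem hsub]
    show (T.subtype (· ∈ s)).map (Function.Embedding.subtype (· ∈ s)) ∈ 𝒯
    rw [e]
    exact hT
  refine ⟨?_, ?_, ?_⟩
  · intro T hT
    have h1 := h.tri _ hT
    refine ⟨?_, by rw [← h1.card_eq, Finset.card_map]⟩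
    intro x hx y hy hxy
    refine h1.isClique ?_ ?_ (fun h2 => hxy (Subtype.ext h2))
    · exact Finset.mem_map_of_mem (Function.Embedding.subtype _) hx
    · exact Finset.mem_map_of_mem (Function.Embedding.subtype _) hy
  · intro u v huv hu hv
    exact h.proper u v huv (fun h1 => hu (hin u h1)) (fun h1 => hv (hin v h1))
  · intro T hT
    obtain ⟨γ, hγ⟩ := h.flat _ hT
    refine ⟨γ, ?_⟩
    rintro v hv ⟨t, ht, hd⟩
    refine hγ v ?_ ⟨t, Finset.mem_map_of_mem (Function.Embedding.subtype _) ht,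
      (edist_induce_le t v).trans hd⟩
    intro h1
    rw [Finset.mem_map] at h1
    obtain ⟨x, hx, h2⟩ := h1
    exact hv ((Subtype.ext h2 : x = v) ▸ hx)

theorem part_aux : ∀ (n : ℕ) (V : Type u) [Fintype V] (G : SimpleGraph V) (𝒯 : Set (Finset V))
    (ψ : V → Fin 3), Fintype.card V = n → Planar G → Far G 4 → Part G 𝒯 ψ → G.Colorable 3 := by
  classical
  intro n
  induction n using Nat.strong_induction_on with
  | _ n ih =>
  intro V _ G 𝒯 ψ hn hG h4 h
  by_cases hsep : ∀ T : Finset V, G.IsNClique 3 T → ∀ u v, u ∉ T → v ∉ T → Rch G (T : Set V) u v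
  · exact colorable_of_part hG h4 hsep _ 𝒯 ψ rfl h
  · push Not at hsep
    obtain ⟨T, hT, u0, v0, hu0, hv0, hno⟩ := hsep
    let K : Set V := {v | Rch G (T : Set V) u0 v}
    have hKT : ∀ v ∈ K, v ∉ T := fun v hv => by simpa using Rch.right hv
    have hKadj : ∀ u v, G.Adj u v → u ∈ K → v ∉ T → v ∈ K := fun u v huv hu hv =>
      Rch.trans hu (Rch.of_adj huv (by simpa using hKT u hu) (by simpa using hv))
    have hu0K : u0 ∈ K := Rch.refl (by simpa using hu0)
    have hv0K : v0 ∉ K := hno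
    -- the two parts
    have c1 : Closed G (K ∪ (T : Set V)) := by
      intro T' hT' v hv hvs w hw
      by_cases hTT : T' = T
      · subst hTT; exact Or.inr hw
      · have hdis : ∀ x ∈ T', x ∉ T := fun x hx hx' => hTT (eq_of_mem h4 hT' hT hx hx')
        have hvK : v ∈ K := by
          rcases hvs with h1 | h1
          · exact h1
          · exact absurd h1 (hdis v hv)
        by_cases hvw : v = w
        · subst hvw; exact Or.inl hvK
        · exact Or.inl (hKadj v w (adj_of_mem hT' hv hw hvw) hvK (hdis w hw))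
    have c2 : Closed G Kᶜ := by
      intro T' hT' v hv hvs w hw hwK
      have hvw : w ≠ v := fun h1 => hvs (h1 ▸ hwK)
      have hvT : v ∈ T := by
        by_contra h1
        exact hvs (hKadj w v (adj_of_mem hT' hw hv hvw) hwK h1)
      have : T' = T := eq_of_mem h4 hT' hT hv hvT
      subst this
      exact hKT w hwK hw
    have k1 : Fintype.card ↥(K ∪ (T : Set V)) < n := by
      rw [← hn]
      refine Fintype.card_subtype_lt (x := v0) ?_
      rintro (h1 | h1)
      · exact hv0K h1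
      · exact hv0 (by simpa using h1)
    have k2 : Fintype.card ↥(Kᶜ : Set V) < n := by
      rw [← hn]
      refine Fintype.card_subtype_lt (x := u0) ?_
      intro h1
      exact h1 hu0K
    obtain ⟨C1⟩ := ih _ k1 _ _ _ _ rfl (planar_induce hG _) (far_induce h4 _) (h.induce c1)
    obtain ⟨C2⟩ := ih _ k2 _ _ _ _ rfl (planar_induce hG _) (far_induce h4 _) (h.induce c2)
    let f1 : V → Fin 3 := fun v => if hv : v ∈ K ∪ (T : Set V) then C1 ⟨v, hv⟩ else 0
    let f2 : V → Fin 3 := fun v => if hv : v ∈ (Kᶜ : Set V) then C2 ⟨v, hv⟩ else 0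
    have f1v : ∀ u v, G.Adj u v → u ∈ K ∪ (T : Set V) → v ∈ K ∪ (T : Set V) → f1 u ≠ f1 v := by
      intro u v huv hu hv
      simp only [f1, dif_pos hu, dif_pos hv]
      exact C1.valid (show (G.induce _).Adj ⟨u, hu⟩ ⟨v, hv⟩ from huv)
    have f2v : ∀ u v, G.Adj u v → u ∈ (Kᶜ : Set V) → v ∈ (Kᶜ : Set V) → f2 u ≠ f2 v := by
      intro u v huv hu hv
      simp only [f2, dif_pos hu, dif_pos hv]
      exact C2.valid (show (G.induce _).Adj ⟨u, hu⟩ ⟨v, hv⟩ from huv)
    have T1 : ∀ t ∈ T, t ∈ K ∪ (T : Set V) := fun t ht => Or.inr (by simpa using ht)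
    have T2 : ∀ t ∈ T, t ∈ (Kᶜ : Set V) := fun t ht h1 => hKT t h1 ht
    obtain ⟨π, hπ, hπT⟩ := exists_match hT.card_eq f1 f2
      (fun x hx y hy hxy => by
        by_contra hne
        exact f1v x y (adj_of_mem hT hx hy hne) (T1 x hx) (T1 y hy) hxy)
      (fun x hx y hy hxy => by
        by_contra hne
        exact f2v x y (adj_of_mem hT hx hy hne) (T2 x hx) (T2 y hy) hxy)
    have mix : ∀ u v, G.Adj u v → u ∈ K → v ∉ K → f1 u ≠ π (f2 v) := by
      intro u v huv hu hv
      have hvT : v ∈ T := by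
        by_contra h1
        exact hv (hKadj u v huv hu h1)
      rw [hπT v hvT]
      exact f1v u v huv (Or.inl hu) (T1 v hvT)
    refine ⟨Coloring.mk (fun v => if v ∈ K then f1 v else π (f2 v)) ?_⟩
    intro u v huv
    by_cases hu : u ∈ K
    · by_cases hv : v ∈ K
      · simp only [if_pos hu, if_pos hv]
        exact f1v u v huv (Or.inl hu) (Or.inl hv)
      · simp only [if_pos hu, if_neg hv]
        exact mix u v huv hu hv
    · by_cases hv : v ∈ K
      · simp only [if_neg hu, if_pos hv]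
        exact (mix v u huv.symm hv hu).symm
      · simp only [if_neg hu, if_neg hv]
        intro h1
        exact f2v u v huv hu hv (hπ h1)

/-- **Planar graphs with two colours near the triangles.** -/
theorem colorable_two_near {V : Type u} [Fintype V] {G : SimpleGraph V} (hG : Planar G)
    (h4 : Far G 4) (𝒯 : Set (Finset V)) (h𝒯 : ∀ T ∈ 𝒯, G.IsNClique 3 T) (ψ : V → Fin 3)
    (hψ : ∀ u v, G.Adj u v → (∀ T ∈ 𝒯, u ∉ T ∧ v ∉ T) → ψ u ≠ ψ v)
    (h2 : ∀ T ∈ 𝒯, ∃ γ, ∀ v, v ∉ T → (∃ t ∈ T, G.edist t v ≤ 2) → ψ v ≠ γ) :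
    G.Colorable 3 :=
  part_aux _ V G 𝒯 ψ rfl hG h4
    ⟨h𝒯, fun u v huv hu hv => hψ u v huv fun T hT =>
      ⟨fun h => hu ⟨T, hT, h⟩, fun h => hv ⟨T, hT, h⟩⟩, h2⟩

end Pool.Agent.HavelNB
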