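import Pool.Agent.Lib.MP_8e2345_co.NB.Nest

set_option autoImplicit false

namespace Pool.Agent.HavelNB

open SimpleGraph

variable {V : Type*} {G : SimpleGraph V}

/-- A path `a p q c` outside of `T` with `p` in class `0` and `q` in class `1`. -/
def Rung (G : SimpleGraph V) (κ : V → Prop) (T : Finset V) (a c p q : V) : Prop :=
  G.Adj a p ∧ p ∉ T ∧ ¬ κ p ∧ G.Adj p q ∧ κ q ∧ q ∉ T ∧ G.Adj q c

/-- The vertices which can be reached from `b` outside of the cycle `a p q c`. -/
def Out (G : SimpleGraph V) (a b c p q : V) : Set V := {v | Rch G {a, c, p, q} b v}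

/-- no common neighbours outside of `T` -/
theorem no_common (h4 : Far G 4) {T : Finset V} (hT : G.IsNClique 3 T) {a c z : V} (ha : a ∈ T)
    (hc : c ∈ T) (hac : a ≠ c) (hz : z ∉ T) (h : G.Adj a z) : ¬ G.Adj z c := by
  classical
  intro h'
  have h1 : G.IsNClique 3 {z, a, c} := by
    rw [is3Clique_iff]
    exact ⟨z, a, c, h.symm, h', adj_of_mem hT ha hc hac, rfl⟩
  have h2 : T = {z, a, c} := eq_of_mem h4 hT h1 ha (by simp)
  exact hz (h2 ▸ by simp)

theorem half [Fintype V] (hG : Planar G) (h4 : Far G 4) (κ : V → Prop) {T : Finset V}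
    (hT : G.IsNClique 3 T)
    (hcon : ∀ u v, u ∉ T → v ∉ T → Rch G (T : Set V) u v)
    {a b c : V} (ha : a ∈ T) (hb : b ∈ T) (hc : c ∈ T) (hab : a ≠ b) (hac : a ≠ c) (hbc : b ≠ c)
    (hall : ∀ v ∈ T, v = a ∨ v = b ∨ v = c)
    {x y : V} (hxy : Rung G κ T c a y x)
    (hmin : ∀ p q, Rung G κ T a c p q → (Out G a b c x y).ncard ≤ (Out G a b c p q).ncard) :
    Loc G κ T a b c {v | v ∉ ({a, c, x, y} : Set V) ∧ ¬ Rch G {a, c, x, y} b v} {x, y} := by
  obtain ⟨hcy, hyT, hky, hyx, hkx, hxT, hxa⟩ := hxy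
  have hTs : (T : Set V) = {a, b, c} := by
    ext v
    simp only [Finset.mem_coe, Set.mem_insert_iff, Set.mem_singleton_iff]
    constructor
    · exact hall v
    · rintro (rfl | rfl | rfl) <;> assumption
  have hne : ∀ {v t : V}, v ∉ T → t ∈ T → v ≠ t := fun hv ht h => hv (h ▸ ht)
  have hbD : b ∉ ({a, c, x, y} : Set V) := by
    simp only [Set.mem_insert_iff, Set.mem_singleton_iff, not_or]
    exact ⟨hab.symm, hbc, (hne hxT hb).symm, (hne hyT hb).symm⟩
  refine ⟨ha, hb, hc, hab, hac, hbc, hall, ?_, ?_, ?_, ?_⟩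
  · rintro v hv ⟨h1, h2⟩
    rcases hall v hv with rfl | rfl | rfl
    · exact h1 (by simp)
    · exact h2 (Rch.refl hbD)
    · exact h1 (by simp)
  · rintro v (rfl | rfl)
    · exact ⟨hxT, fun h => h.1 (by simp), Or.inl ⟨hxa.symm, hkx⟩⟩
    · exact ⟨hyT, fun h => h.1 (by simp), Or.inr ⟨hcy, hky⟩⟩
  · rintro u v huv ⟨h1, h2⟩ hv
    have hvD : v ∈ ({a, c, x, y} : Set V) := by
      by_contra h3
      refine hv ⟨h3, fun h4 => h2 (h4.trans (Rch.of_adj huv.symm h3 h1))⟩
    simp only [Set.mem_insert_iff, Set.mem_singleton_iff] at hvD ⊢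
    tauto
  · intro p q hap hpT hkp hpq hkq hqT hqc
    have hyc := hcy.symm
    -- distinctness
    have e1 : p ≠ x := fun h => hkp (h ▸ hkx)
    have e2 : q ≠ y := fun h => hky (h ▸ hkq)
    have e3 : p ≠ y := by
      rintro rfl
      exact no_common h4 hT ha hc hac hpT hap hyc
    have e4 : q ≠ x := by
      rintro rfl
      exact no_common h4 hT ha hc hac hxT hxa.symm hqc
    have hpD : p ∉ ({a, c, x, y} : Set V) := by
      simp only [Set.mem_insert_iff, Set.mem_singleton_iff, not_or]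
      exact ⟨hne hpT ha, hne hpT hc, e1, e3⟩
    refine ⟨hpD, fun hr => ?_⟩
    have key : ¬ Rch G {a, c, p, q} b x := by
      intro hr2
      refine nested hG (a := a) (b := b) (c := c) (p₁ := p) (q₁ := q) (p₂ := x) (q₂ := y)
        (adj_of_mem hT ha hb hab) (adj_of_mem hT ha hc hac) (adj_of_mem hT hb hc hbc)
        hap hpq hqc hxa.symm hyx.symm hyc
        (hne hpT hb) (hne hpT hc) (hne hqT ha) (hne hqT hb)
        (hne hxT hb) (hne hxT hc) (hne hyT ha) (hne hyT hb)
        e1 e3 e4 e2 ?_ hr hr2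
      have := hcon p x hpT hxT
      rwa [hTs] at this
    have hsub : Out G a b c p q ⊆ Out G a b c x y := by
      rintro v ⟨w, hw⟩
      refine ⟨w, ?_⟩
      intro z hz hzD
      have hz1 := hw z hz
      simp only [Set.mem_insert_iff, Set.mem_singleton_iff, not_or] at hz1 hzD
      have hbz : Rch G {a, c, p, q} b z := by
        classical
        exact ⟨w.takeUntil z hz, fun y' hy' => hw y' (w.support_takeUntil_subset_support hz hy')⟩
      rcases hzD with h | h | h | h
      · exact hz1.1 h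
      · exact hz1.2.1 h
      · subst h; exact key hbz
      · subst h
        refine key (hbz.trans (Rch.of_adj hyx hbz.right ?_))
        simp only [Set.mem_insert_iff, Set.mem_singleton_iff, not_or]
        exact ⟨hne hxT ha, hne hxT hc, e1.symm, e4.symm⟩
    have hlt : (Out G a b c p q).ncard < (Out G a b c x y).ncard := by
      refine Set.ncard_lt_ncard ⟨hsub, fun h => ?_⟩ (Set.toFinite _)
      have h1 : p ∈ Out G a b c p q := h hr
      exact Rch.right h1 (by simp)
    exact absurd (hmin p q ⟨hap, hpT, hkp, hpq, hkq, hqT, hqc⟩) (not_le.2 hlt)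

theorem out_swap (a b c p q : V) : Out G a b c p q = Out G c b a q p := by
  have : ({a, c, p, q} : Set V) = {c, a, q, p} := by
    ext v
    simp only [Set.mem_insert_iff, Set.mem_singleton_iff]
    tauto
  unfold Out
  rw [this]

/-- The local data exist at a triangle which does not separate. -/
theorem exists_loc [Fintype V] (hG : Planar G) (h4 : Far G 4) (κ : V → Prop) {T : Finset V}
    (hT : G.IsNClique 3 T)
    (hcon : ∀ u v, u ∉ T → v ∉ T → Rch G (T : Set V) u v) :
    ∃ (a b c : V) (W E : Set V), Loc G κ T a b c W E := by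
  classical
  obtain ⟨a, b, c, hab, hac, hbc, hTe⟩ := is3Clique_iff.1 hT
  have ha : a ∈ T := by rw [hTe]; simp
  have hb : b ∈ T := by rw [hTe]; simp
  have hc : c ∈ T := by rw [hTe]; simp
  have hall : ∀ v ∈ T, v = a ∨ v = b ∨ v = c := by
    intro v hv; rw [hTe] at hv; simpa using hv
  by_cases h1 : ∃ p q, Rung G κ T a c p q
  · by_cases h2 : ∃ p q, Rung G κ T c a p q
    · -- a rung with minimal outside
      let P : Finset (V × V) := Finset.univ.filter fun r =>
        Rung G κ T a c r.1 r.2 ∨ Rung G κ T c a r.2 r.1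
      have hP : P.Nonempty := by
        obtain ⟨p, q, h⟩ := h1
        exact ⟨(p, q), by simp [P, h]⟩
      obtain ⟨r, hr, hmin⟩ := P.exists_min_image (fun r => (Out G a b c r.1 r.2).ncard) hP
      have hr' : Rung G κ T a c r.1 r.2 ∨ Rung G κ T c a r.2 r.1 := by simpa [P] using hr
      rcases hr' with hr' | hr'
      · refine ⟨c, b, a, _, _, half hG h4 κ hT hcon hc hb ha hbc.ne.symm hac.ne.symm hab.ne.symm
          (fun v hv => by rcases hall v hv with h | h | h <;> tauto) (x := r.2) (y := r.1) hr' ?_⟩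
        intro p q hpq
        rw [out_swap c b a r.2 r.1, out_swap c b a p q]
        exact hmin (q, p) (by simp [P, hpq])
      · refine ⟨a, b, c, _, _, half hG h4 κ hT hcon ha hb hc hab.ne hac.ne hbc.ne hall
          (x := r.1) (y := r.2) hr' ?_⟩
        intro p q hpq
        exact hmin (p, q) (by simp [P, hpq])
    · refine ⟨c, b, a, ∅, ∅, hc, hb, ha, hbc.ne.symm, hac.ne.symm, hab.ne.symm,
        (fun v hv => by rcases hall v hv with h | h | h <;> tauto), by simp, by simp, by simp, ?_⟩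
      intro p q a1 a2 a3 a4 a5 a6 a7
      exact absurd ⟨p, q, a1, a2, a3, a4, a5, a6, a7⟩ h2
  · refine ⟨a, b, c, ∅, ∅, ha, hb, hc, hab.ne, hac.ne, hbc.ne, hall, by simp, by simp, by simp, ?_⟩
    intro p q a1 a2 a3 a4 a5 a6 a7
    exact absurd ⟨p, q, a1, a2, a3, a4, a5, a6, a7⟩ h1

end Pool.Agent.HavelNB
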