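import Pool.Agent.Lib.MP_8e2345_co.NB.Basic

set_option autoImplicit false

namespace Pool.Agent.HavelNB

open SimpleGraph

variable {V : Type*} {G : SimpleGraph V}

/-- `H` is a minor of `G`: disjoint connected sets of vertices of `G`, one for each vertex of `H`, joined by edges of `G`
as the vertices of `H`. -/
def HasMinor {W V : Type*} (H : SimpleGraph W) (G : SimpleGraph V) : Prop :=
  ∃ μ : W → Set V, (∀ w, (G.induce (μ w)).Connected) ∧
    (∀ w w', w ≠ w' → Disjoint (μ w) (μ w')) ∧
    ∀ w w', H.Adj w w' → ∃ u ∈ μ w, ∃ v ∈ μ w', G.Adj u v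

/-- Neither `K₅` nor `K₃,₃` is a minor. -/
def Planar (G : SimpleGraph V) : Prop :=
  ¬ HasMinor (⊤ : SimpleGraph (Fin 5)) G ∧ ¬ HasMinor (completeBipartiteGraph (Fin 3) (Fin 3)) G

/-- joined by an edge -/
def Jn (G : SimpleGraph V) (S T : Set V) : Prop := ∃ u ∈ S, ∃ v ∈ T, G.Adj u v

theorem Jn.symm {S T : Set V} (h : Jn G S T) : Jn G T S := by
  obtain ⟨u, hu, v, hv, h⟩ := h
  exact ⟨v, hv, u, hu, h.symm⟩

theorem hasMinor_five {S0 S1 S2 S3 S4 : Set V}
    (c0 : (G.induce S0).Connected) (c1 : (G.induce S1).Connected) (c2 : (G.induce S2).Connected)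
    (c3 : (G.induce S3).Connected) (c4 : (G.induce S4).Connected)
    (d01 : Disjoint S0 S1) (d02 : Disjoint S0 S2) (d03 : Disjoint S0 S3) (d04 : Disjoint S0 S4)
    (d12 : Disjoint S1 S2) (d13 : Disjoint S1 S3) (d14 : Disjoint S1 S4)
    (d23 : Disjoint S2 S3) (d24 : Disjoint S2 S4) (d34 : Disjoint S3 S4)
    (j01 : Jn G S0 S1) (j02 : Jn G S0 S2) (j03 : Jn G S0 S3) (j04 : Jn G S0 S4)
    (j12 : Jn G S1 S2) (j13 : Jn G S1 S3) (j14 : Jn G S1 S4)
    (j23 : Jn G S2 S3) (j24 : Jn G S2 S4) (j34 : Jn G S3 S4) :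
    HasMinor (⊤ : SimpleGraph (Fin 5)) G := by
  refine ⟨![S0, S1, S2, S3, S4], ?_, ?_, ?_⟩
  · intro w
    fin_cases w <;> assumption
  · intro w w' h
    fin_cases w <;> fin_cases w' <;>
      first | exact absurd rfl h | assumption | (refine Disjoint.symm ?_; assumption)
  · intro w w' h
    have h' := h.ne
    fin_cases w <;> fin_cases w' <;>
      first | exact absurd rfl h' | assumption | (refine Jn.symm ?_; assumption)

theorem hasMinor_33 {A0 A1 A2 B0 B1 B2 : Set V}
    (a0 : (G.induce A0).Connected) (a1 : (G.induce A1).Connected) (a2 : (G.induce A2).Connected)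
    (b0 : (G.induce B0).Connected) (b1 : (G.induce B1).Connected) (b2 : (G.induce B2).Connected)
    (da01 : Disjoint A0 A1) (da02 : Disjoint A0 A2) (da12 : Disjoint A1 A2)
    (db01 : Disjoint B0 B1) (db02 : Disjoint B0 B2) (db12 : Disjoint B1 B2)
    (d00 : Disjoint A0 B0) (d01 : Disjoint A0 B1) (d02 : Disjoint A0 B2)
    (d10 : Disjoint A1 B0) (d11 : Disjoint A1 B1) (d12 : Disjoint A1 B2)
    (d20 : Disjoint A2 B0) (d21 : Disjoint A2 B1) (d22 : Disjoint A2 B2)
    (j00 : Jn G A0 B0) (j01 : Jn G A0 B1) (j02 : Jn G A0 B2)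
    (j10 : Jn G A1 B0) (j11 : Jn G A1 B1) (j12 : Jn G A1 B2)
    (j20 : Jn G A2 B0) (j21 : Jn G A2 B1) (j22 : Jn G A2 B2) :
    HasMinor (completeBipartiteGraph (Fin 3) (Fin 3)) G := by
  refine ⟨Sum.elim ![A0, A1, A2] ![B0, B1, B2], ?_, ?_, ?_⟩
  · rintro (w | w)
    · fin_cases w <;> assumption
    · fin_cases w <;> assumption
  · rintro (w | w) (w' | w') h
    · fin_cases w <;> fin_cases w' <;>
        first | exact absurd rfl h | assumption | (refine Disjoint.symm ?_; assumption)
    · fin_cases w <;> fin_cases w' <;>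
        first | exact absurd rfl h | assumption | (refine Disjoint.symm ?_; assumption)
    · fin_cases w <;> fin_cases w' <;>
        first | exact absurd rfl h | assumption | (refine Disjoint.symm ?_; assumption)
    · fin_cases w <;> fin_cases w' <;>
        first | exact absurd rfl h | assumption | (refine Disjoint.symm ?_; assumption)
  · rintro (w | w) (w' | w') h
    · simp at h
    · fin_cases w <;> fin_cases w' <;> first | assumption | (refine Jn.symm ?_; assumption)
    · fin_cases w <;> fin_cases w' <;> first | assumption | (refine Jn.symm ?_; assumption)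
    · simp at h

/-- There is a walk from `u` to `v` which avoids `S`. -/
def Rch (G : SimpleGraph V) (S : Set V) (u v : V) : Prop := ∃ w : G.Walk u v, ∀ x ∈ w.support, x ∉ S

theorem Rch.refl {S : Set V} {u : V} (h : u ∉ S) : Rch G S u u :=
  ⟨Walk.nil, by simpa using h⟩

theorem Rch.symm {S : Set V} {u v : V} (h : Rch G S u v) : Rch G S v u := by
  obtain ⟨w, hw⟩ := h
  exact ⟨w.reverse, by simpa using hw⟩

theorem Rch.trans {S : Set V} {u v x : V} (h : Rch G S u v) (h' : Rch G S v x) : Rch G S u x := by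
  obtain ⟨w, hw⟩ := h
  obtain ⟨w', hw'⟩ := h'
  refine ⟨w.append w', ?_⟩
  intro y hy
  rw [Walk.mem_support_append_iff] at hy
  rcases hy with hy | hy
  · exact hw y hy
  · exact hw' y hy

theorem Rch.of_adj {S : Set V} {u v : V} (h : G.Adj u v) (hu : u ∉ S) (hv : v ∉ S) :
    Rch G S u v := by
  refine ⟨Walk.cons h Walk.nil, ?_⟩
  intro x hx
  simp only [Walk.support_cons, Walk.support_nil, List.mem_cons, List.not_mem_nil, or_false] at hx
  rcases hx with rfl | rfl
  · exact hu
  · exact hv

theorem Rch.left {S : Set V} {u v : V} (h : Rch G S u v) : u ∉ S := by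
  obtain ⟨w, hw⟩ := h
  exact hw u w.start_mem_support

theorem Rch.right {S : Set V} {u v : V} (h : Rch G S u v) : v ∉ S := h.symm.left

theorem Rch.mono {S S' : Set V} {u v : V} (h : Rch G S u v) (hS : S' ⊆ S) : Rch G S' u v := by
  obtain ⟨w, hw⟩ := h
  exact ⟨w, fun x hx hx' => hw x hx (hS hx')⟩

/-- The set of all vertices which can be reached from `u` without `S` is connected. -/
theorem connected_rch {S : Set V} {u : V} (h : u ∉ S) :
    (G.induce {v | Rch G S u v}).Connected := by
  refine induce_connected_of_patches u (Rch.refl h) ?_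
  intro v hv
  obtain ⟨w, hw⟩ := hv
  refine ⟨{x | x ∈ w.support}, ?_, w.start_mem_support, w.end_mem_support, ?_⟩
  · intro x hx
    classical
    refine ⟨w.takeUntil x hx, fun y hy => hw y (w.support_takeUntil_subset_support hx hy)⟩
  · exact w.connected_induce_support.preconnected _ _

theorem connected_singleton (u : V) : (G.induce {u}).Connected := by
  have := (Walk.nil : G.Walk u u).connected_induce_support
  simpa using this

/-- Leaving a set. -/
theorem Rch.exit {S : Set V} {u v : V} (h : Rch G S u v) {C : Set V} (hu : u ∈ C) (hv : v ∉ C) :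
    ∃ x ∈ C, ∃ y, y ∉ C ∧ G.Adj x y ∧ x ∉ S ∧ y ∉ S := by
  obtain ⟨w, hw⟩ := h
  obtain ⟨d, hd, h1, h2⟩ := w.exists_boundary_dart C hu hv
  exact ⟨d.fst, h1, d.snd, h2, d.adj, hw _ (w.dart_fst_mem_support_of_mem_darts hd),
    hw _ (w.dart_snd_mem_support_of_mem_darts hd)⟩

/-- Leaving the set of the vertices reachable from `u` without `S`. -/
theorem Rch.exit' {S S' : Set V} {u u' v : V} (h : Rch G S u v) (hu : Rch G S' u' u)
    (hv : ¬ Rch G S' u' v) :
    ∃ x y, Rch G S' u' x ∧ y ∈ S' ∧ G.Adj x y ∧ x ∉ S ∧ y ∉ S := by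
  obtain ⟨x, hx, y, hy, h1, h2, h3⟩ := h.exit (C := {z | Rch G S' u' z}) hu hv
  refine ⟨x, y, hx, ?_, h1, h2, h3⟩
  by_contra h4
  exact hy (hx.trans (Rch.of_adj h1 hx.right h4))

/-- Two disjoint 4-cycles through the edge `ac` of a triangle `abc` that does not separate are nested. -/
theorem nested (hG : Planar G) {a b c p₁ q₁ p₂ q₂ : V}
    (hab : G.Adj a b) (hac : G.Adj a c) (hbc : G.Adj b c)
    (h1 : G.Adj a p₁) (h2 : G.Adj p₁ q₁) (h3 : G.Adj q₁ c)
    (h1' : G.Adj a p₂) (h2' : G.Adj p₂ q₂) (h3' : G.Adj q₂ c)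
    (n1 : p₁ ≠ b) (n2 : p₁ ≠ c) (n3 : q₁ ≠ a) (n4 : q₁ ≠ b)
    (n1' : p₂ ≠ b) (n2' : p₂ ≠ c) (n3' : q₂ ≠ a) (n4' : q₂ ≠ b)
    (m1 : p₁ ≠ p₂) (m2 : p₁ ≠ q₂) (m3 : q₁ ≠ p₂) (m4 : q₁ ≠ q₂)
    (r : Rch G {a, b, c} p₁ p₂)
    (r1 : Rch G {a, c, p₂, q₂} b p₁) (r2 : Rch G {a, c, p₁, q₁} b p₂) : False := by
  classical
  -- the component of b
  set D : Set V := {a, c, p₁, q₁, p₂, q₂} with hD
  have hbD : b ∉ D := by
    simp only [hD, Set.mem_insert_iff, Set.mem_singleton_iff, not_or]
    exact ⟨hab.ne.symm, hbc.ne, n1.symm, n4.symm, n1'.symm, n4'.symm⟩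
  set B : Set V := {v | Rch G D b v} with hB
  have Bdis : ∀ v ∈ B, v ∉ D := fun v hv => Rch.right hv
  have Bcon : (G.induce B).Connected := connected_rch hbD
  have bB : b ∈ B := Rch.refl hbD
  have X1con : (G.induce {p₁, q₁}).Connected := induce_pair_connected_of_adj h2
  have X2con : (G.induce {p₂, q₂}).Connected := induce_pair_connected_of_adj h2'
  have BX1 : Jn G B {p₁, q₁} := by
    obtain ⟨x, y, hx, hy, hxy, _, hyS⟩ := r1.exit' (S' := D) (u' := b) (Rch.refl hbD)
      (fun h => h.right (by simp [hD]))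
    refine ⟨x, hx, y, ?_, hxy⟩
    simp only [hD, Set.mem_insert_iff, Set.mem_singleton_iff, not_or] at hy hyS ⊢
    tauto
  have BX2 : Jn G B {p₂, q₂} := by
    obtain ⟨x, y, hx, hy, hxy, _, hyS⟩ := r2.exit' (S' := D) (u' := b) (Rch.refl hbD)
      (fun h => h.right (by simp [hD]))
    refine ⟨x, hx, y, ?_, hxy⟩
    simp only [hD, Set.mem_insert_iff, Set.mem_singleton_iff, not_or] at hy hyS ⊢
    tauto
  -- leaving the component of p₁
  have hp1 : p₁ ∉ ({a, b, c, p₂, q₂} : Set V) := by
    simp only [Set.mem_insert_iff, Set.mem_singleton_iff, not_or]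
    exact ⟨h1.ne.symm, n1, n2, m1, m2⟩
  obtain ⟨y, x, hy, hx, hyx, hyS, hxS⟩ := r.exit' (S' := {a, b, c, p₂, q₂}) (u' := p₁)
    (Rch.refl hp1) (fun h => h.right (by simp))
  have hx2 : x ∈ ({p₂, q₂} : Set V) := by
    simp only [Set.mem_insert_iff, Set.mem_singleton_iff, not_or] at hx hxS ⊢
    tauto
  have disD : ∀ {S T : Set V}, (∀ v ∈ S, v ∉ T) → Disjoint S T := by
    intro S T h
    exact Set.disjoint_left.2 h
  have aX1 : Jn G {a} {p₁, q₁} := ⟨a, rfl, p₁, by simp, h1⟩
  have cX1 : Jn G {c} {p₁, q₁} := ⟨c, rfl, q₁, by simp, h3.symm⟩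
  have aX2 : Jn G {a} {p₂, q₂} := ⟨a, rfl, p₂, by simp, h1'⟩
  have cX2 : Jn G {c} {p₂, q₂} := ⟨c, rfl, q₂, by simp, h3'.symm⟩
  have aB : Jn G {a} B := ⟨a, rfl, b, bB, hab⟩
  have cB : Jn G {c} B := ⟨c, rfl, b, bB, hbc.symm⟩
  have daX1 : Disjoint {a} ({p₁, q₁} : Set V) := by
    refine disD ?_
    rintro v hv hv'
    simp only [Set.mem_insert_iff, Set.mem_singleton_iff] at hv hv'
    rcases hv' with h | h
    · exact h1.ne (hv.symm.trans h)
    · exact n3 (h.symm.trans hv)
  have dcX1 : Disjoint {c} ({p₁, q₁} : Set V) := by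
    refine disD ?_
    rintro v hv hv'
    simp only [Set.mem_insert_iff, Set.mem_singleton_iff] at hv hv'
    rcases hv' with h | h
    · exact n2 (h.symm.trans hv)
    · exact h3.ne (h.symm.trans hv)
  have daX2 : Disjoint {a} ({p₂, q₂} : Set V) := by
    refine disD ?_
    rintro v hv hv'
    simp only [Set.mem_insert_iff, Set.mem_singleton_iff] at hv hv'
    rcases hv' with h | h
    · exact h1'.ne (hv.symm.trans h)
    · exact n3' (h.symm.trans hv)
  have dcX2 : Disjoint {c} ({p₂, q₂} : Set V) := by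
    refine disD ?_
    rintro v hv hv'
    simp only [Set.mem_insert_iff, Set.mem_singleton_iff] at hv hv'
    rcases hv' with h | h
    · exact n2' (h.symm.trans hv)
    · exact h3'.ne (h.symm.trans hv)
  have dX : Disjoint ({p₁, q₁} : Set V) {p₂, q₂} := by
    refine disD ?_
    rintro v hv hv'
    simp only [Set.mem_insert_iff, Set.mem_singleton_iff] at hv hv'
    rcases hv with h | h <;> rcases hv' with h' | h'
    · exact m1 (h.symm.trans h')
    · exact m2 (h.symm.trans h')
    · exact m3 (h.symm.trans h')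
    · exact m4 (h.symm.trans h')
  have dac : Disjoint ({a} : Set V) {c} := by
    refine disD ?_
    rintro v hv hv'
    simp only [Set.mem_singleton_iff] at hv hv'
    exact hac.ne (hv.symm.trans hv')
  have daB : Disjoint {a} B := by
    refine disD ?_
    rintro v hv hv'
    simp only [Set.mem_singleton_iff] at hv
    subst hv
    exact Bdis _ hv' (by simp [hD])
  have dcB : Disjoint {c} B := by
    refine disD ?_
    rintro v hv hv'
    simp only [Set.mem_singleton_iff] at hv
    subst hv
    exact Bdis _ hv' (by simp [hD])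
  have dBX1 : Disjoint B {p₁, q₁} := by
    refine disD ?_
    rintro v hv hv'
    simp only [Set.mem_insert_iff, Set.mem_singleton_iff] at hv'
    refine Bdis v hv ?_
    simp only [hD, Set.mem_insert_iff, Set.mem_singleton_iff]
    tauto
  have dBX2 : Disjoint B {p₂, q₂} := by
    refine disD ?_
    rintro v hv hv'
    simp only [Set.mem_insert_iff, Set.mem_singleton_iff] at hv'
    refine Bdis v hv ?_
    simp only [hD, Set.mem_insert_iff, Set.mem_singleton_iff]
    tauto
  have jac : Jn G {a} {c} := ⟨a, rfl, c, rfl, hac⟩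
  by_cases hyX : y ∈ ({p₁, q₁} : Set V)
  · exact hG.1 (hasMinor_five (S0 := {a}) (S1 := {c}) (S2 := B) (S3 := {p₁, q₁}) (S4 := {p₂, q₂})
      (connected_singleton a) (connected_singleton c) Bcon X1con X2con
      dac daB daX1 daX2 dcB dcX1 dcX2 dBX1 dBX2 dX
      jac aB aX1 aX2 cB cX1 cX2 BX1 BX2 ⟨y, hyX, x, hx2, hyx⟩)
  · set F : Set V := {a, b, c, p₁, q₁, p₂, q₂} with hF
    have hyF : y ∉ F := by
      have h5 := hy.right
      simp only [hF, Set.mem_insert_iff, Set.mem_singleton_iff, not_or] at h5 hyX ⊢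
      tauto
    set Z : Set V := {v | Rch G F y v} with hZ
    have Zdis : ∀ v ∈ Z, v ∉ F := fun v hv => Rch.right hv
    have Zcon : (G.induce Z).Connected := connected_rch hyF
    have yZ : y ∈ Z := Rch.refl hyF
    have ZX2 : Jn G Z {p₂, q₂} := ⟨y, yZ, x, hx2, hyx⟩
    have ZX1 : Jn G Z {p₁, q₁} := by
      obtain ⟨s, t, hs, ht, hst, _, htS⟩ := hy.symm.exit' (S' := F) (u' := y) (Rch.refl hyF)
        (fun h => h.right (by simp [hF]))
      refine ⟨s, hs, t, ?_, hst⟩
      simp only [hF, Set.mem_insert_iff, Set.mem_singleton_iff, not_or] at ht htS ⊢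
      tauto
    have daZ : Disjoint {a} Z := by
      refine disD ?_
      rintro v hv hv'
      simp only [Set.mem_singleton_iff] at hv
      subst hv
      exact Zdis _ hv' (by simp [hF])
    have dcZ : Disjoint {c} Z := by
      refine disD ?_
      rintro v hv hv'
      simp only [Set.mem_singleton_iff] at hv
      subst hv
      exact Zdis _ hv' (by simp [hF])
    have dZX1 : Disjoint Z {p₁, q₁} := by
      refine disD ?_
      rintro v hv hv'
      simp only [Set.mem_insert_iff, Set.mem_singleton_iff] at hv'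
      refine Zdis v hv ?_
      simp only [hF, Set.mem_insert_iff, Set.mem_singleton_iff]
      tauto
    have dZX2 : Disjoint Z {p₂, q₂} := by
      refine disD ?_
      rintro v hv hv'
      simp only [Set.mem_insert_iff, Set.mem_singleton_iff] at hv'
      refine Zdis v hv ?_
      simp only [hF, Set.mem_insert_iff, Set.mem_singleton_iff]
      tauto
    by_cases hbZ : Jn G Z {b}
    · have dZb : Disjoint Z {b} := by
        refine disD ?_
        rintro v hv hv'
        simp only [Set.mem_singleton_iff] at hv'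
        subst hv'
        exact Zdis _ hv (by simp [hF])
      have dab : Disjoint ({a} : Set V) {b} := by
        refine disD ?_
        rintro v hv hv'
        simp only [Set.mem_singleton_iff] at hv hv'
        exact hab.ne (hv.symm.trans hv')
      have dcb : Disjoint ({c} : Set V) {b} := by
        refine disD ?_
        rintro v hv hv'
        simp only [Set.mem_singleton_iff] at hv hv'
        exact hbc.ne (hv'.symm.trans hv)
      have dbX1 : Disjoint ({b} : Set V) {p₁, q₁} := by
        refine disD ?_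
        rintro v hv hv'
        simp only [Set.mem_insert_iff, Set.mem_singleton_iff] at hv hv'
        rcases hv' with h | h
        · exact n1 (h.symm.trans hv)
        · exact n4 (h.symm.trans hv)
      have dbX2 : Disjoint ({b} : Set V) {p₂, q₂} := by
        refine disD ?_
        rintro v hv hv'
        simp only [Set.mem_insert_iff, Set.mem_singleton_iff] at hv hv'
        rcases hv' with h | h
        · exact n1' (h.symm.trans hv)
        · exact n4' (h.symm.trans hv)
      exact hG.2 (hasMinor_33 (A0 := {a}) (A1 := {c}) (A2 := Z) (B0 := {b}) (B1 := {p₁, q₁})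
        (B2 := {p₂, q₂})
        (connected_singleton a) (connected_singleton c) Zcon (connected_singleton b) X1con X2con
        dac daZ dcZ dbX1 dbX2 dX
        dab daX1 daX2 dcb dcX1 dcX2 dZb dZX1 dZX2
        ⟨a, rfl, b, rfl, hab⟩ aX1 aX2 ⟨c, rfl, b, rfl, hbc.symm⟩ cX1 cX2 hbZ ZX1 ZX2)
    · -- Z is disjoint from B
      have dBZ : Disjoint B Z := by
        refine disD ?_
        intro v hv hvZ
        -- walk from v to b avoiding D leaves Z at b
        obtain ⟨s, t, hs, ht, hst, _, htS⟩ := (Rch.symm hv).exit' (S' := F) (u' := y) hvZ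
          (fun h => h.right (by simp [hF]))
        have : t = b := by
          simp only [hF, hD, Set.mem_insert_iff, Set.mem_singleton_iff, not_or] at ht htS
          tauto
        exact hbZ ⟨s, hs, t, this, hst⟩
      obtain ⟨s, hs, t, ht, hst⟩ := ZX1
      have Ycon : (G.induce ({p₁, q₁} ∪ Z)).Connected :=
        connected_induce_union X1con.preconnected Zcon.preconnected ht hs hst.symm
      exact hG.1 (hasMinor_five (S0 := {a}) (S1 := {c}) (S2 := B) (S3 := {p₁, q₁} ∪ Z)
        (S4 := {p₂, q₂})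
        (connected_singleton a) (connected_singleton c) Bcon Ycon X2con
        dac daB (Set.disjoint_union_right.2 ⟨daX1, daZ⟩) daX2
        dcB (Set.disjoint_union_right.2 ⟨dcX1, dcZ⟩) dcX2
        (Set.disjoint_union_right.2 ⟨dBX1, dBZ⟩) dBX2
        (Set.disjoint_union_left.2 ⟨dX, dZX2⟩)
        jac aB ⟨a, rfl, p₁, Or.inl (by simp), h1⟩ aX2
        cB ⟨c, rfl, q₁, Or.inl (by simp), h3.symm⟩ cX2
        (by
          obtain ⟨u, hu, v, hv, huv⟩ := BX1
          exact ⟨u, hu, v, Or.inl hv, huv⟩) BX2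
        ⟨y, Or.inr yZ, x, hx2, hyx⟩)

end Pool.Agent.HavelNB
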