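import Pool.Agent.Lib.MP_8e2345_co.NB.Local
import Pool.Agent.Lib.MP_8e2345_co.NB.Color

set_option autoImplicit false

namespace Pool.Agent.HavelNB

open SimpleGraph

universe u

/-- The hypotheses of the theorem, with the classes of the bipartite part. -/
structure Hyp {V : Type u} (G : SimpleGraph V) (I : Set V) (κ : V → Prop) : Prop where
  planar : Planar G
  far : Far G 4
  indep : ∀ x ∈ I, ∀ y ∈ I, ¬ G.Adj x y
  ifar : ∀ x ∈ I, ∀ T : Finset V, G.IsNClique 3 T → ∀ t ∈ T, (4 : ℕ∞) ≤ G.edist x t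
  cls : ∀ u v, G.Adj u v → ¬ Tri G u → ¬ Tri G v → u ∉ I → v ∉ I → (κ u ↔ ¬ κ v)

variable {V : Type u} {G : SimpleGraph V}

theorem edist_induce_le {s : Set V} (a b : s) : G.edist a b ≤ (G.induce s).edist a b := by
  refine le_iInf fun w => ?_
  have h := G.edist_le (w.map (Embedding.induce s).toHom)
  rw [Walk.length_map] at h
  exact h

theorem hasMinor_of_induce {W : Type*} {H : SimpleGraph W} {s : Set V}
    (h : HasMinor H (G.induce s)) : HasMinor H G := by
  obtain ⟨μ, h1, h2, h3⟩ := h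
  refine ⟨fun w => Subtype.val '' μ w, ?_, ?_, ?_⟩
  · intro w
    let f : (G.induce s).induce (μ w) →g G.induce (Subtype.val '' μ w) :=
      { toFun := fun x => ⟨x.1.1, ⟨x.1, x.2, rfl⟩⟩
        map_rel' := fun {a b} h => h }
    refine (h1 w).map f ?_
    rintro ⟨_, x, hx, rfl⟩
    exact ⟨⟨x, hx⟩, rfl⟩
  · intro w w' hne
    exact (Set.disjoint_image_iff Subtype.val_injective).2 (h2 w w' hne)
  · intro w w' hH
    obtain ⟨u, hu, v, hv, h⟩ := h3 w w' hH
    exact ⟨u.1, ⟨u, hu, rfl⟩, v.1, ⟨v, hv, rfl⟩, h⟩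

theorem clique_map {s : Set V} {A : Finset s} (hA : (G.induce s).IsNClique 3 A) :
    G.IsNClique 3 (A.map (Function.Embedding.subtype _)) := by
  refine ⟨?_, by rw [Finset.card_map]; exact hA.card_eq⟩
  intro x hx y hy hxy
  rw [Finset.mem_coe, Finset.mem_map] at hx hy
  obtain ⟨x', hx', rfl⟩ := hx
  obtain ⟨y', hy', rfl⟩ := hy
  exact hA.isClique hx' hy' (fun h => hxy (by rw [h]))

/-- Every triangle which meets `s` is contained in `s`. -/
def Closed (G : SimpleGraph V) (s : Set V) : Prop :=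
  ∀ T : Finset V, G.IsNClique 3 T → ∀ v ∈ T, v ∈ s → ∀ w ∈ T, w ∈ s

theorem Hyp.induce {I : Set V} {κ : V → Prop} (h : Hyp G I κ) {s : Set V} (hs : Closed G s) :
    Hyp (G.induce s) {x | (x : V) ∈ I} (fun x => κ x) := by
  have htri : ∀ v : s, Tri G v → Tri (G.induce s) v := by
    classical
    rintro v ⟨T, hT, hv⟩
    have hsub : ∀ w ∈ T, w ∈ s := hs T hT v hv v.2
    refine ⟨T.subtype (· ∈ s), ?_, by simpa using hv⟩
    refine ⟨?_, ?_⟩
    · intro x hx y hy hxy
      have hx' : (x : V) ∈ T := by simpa using hx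
      have hy' : (y : V) ∈ T := by simpa using hy
      exact hT.isClique hx' hy' (fun h => hxy (Subtype.ext h))
    · rw [Finset.card_subtype, Finset.filter_true_of_mem hsub]
      exact hT.card_eq
  refine ⟨⟨fun h1 => h.planar.1 (hasMinor_of_induce h1), fun h1 => h.planar.2 (hasMinor_of_induce h1)⟩,
    ?_, ?_, ?_, ?_⟩
  · intro A B hA hB hne a ha b hb
    refine (h.far _ _ (clique_map hA) (clique_map hB) ?_ a ?_ b ?_).trans (edist_induce_le a b)
    · intro h1
      exact hne (Finset.map_injective _ h1)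
    · exact Finset.mem_map_of_mem (Function.Embedding.subtype _) ha
    · exact Finset.mem_map_of_mem (Function.Embedding.subtype _) hb
  · intro x hx y hy hxy
    exact h.indep x hx y hy hxy
  · intro x hx T hT t ht
    refine (h.ifar x hx _ (clique_map hT) t ?_).trans (edist_induce_le x t)
    exact Finset.mem_map_of_mem (Function.Embedding.subtype _) ht
  · intro u v huv hu hv huI hvI
    exact h.cls u v huv (fun h1 => hu (htri u h1)) (fun h1 => hv (htri v h1)) huI hvI

/-- Matching the colours of a triangle. -/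
theorem exists_match {T : Finset V} (hT : T.card = 3) (f g : V → Fin 3)
    (hf : ∀ x ∈ T, ∀ y ∈ T, f x = f y → x = y) (hg : ∀ x ∈ T, ∀ y ∈ T, g x = g y → x = y) :
    ∃ π : Fin 3 → Fin 3, Function.Injective π ∧ ∀ x ∈ T, π (g x) = f x := by
  classical
  let e : T → Fin 3 := fun x => g x
  have he : Function.Injective e := fun x y h => Subtype.ext (hg x x.2 y y.2 h)
  have hb : Function.Bijective e := by
    rw [Fintype.bijective_iff_injective_and_card]
    exact ⟨he, by simp [hT]⟩
  let E := Equiv.ofBijective e hb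
  refine ⟨fun c => f (E.symm c), ?_, ?_⟩
  · intro c d h
    have := hf _ (E.symm c).2 _ (E.symm d).2 h
    exact E.symm.injective (Subtype.ext this)
  · intro x hx
    have : E ⟨x, hx⟩ = g x := rfl
    simp only
    rw [← this, Equiv.symm_apply_apply]

theorem colorable_aux : ∀ (n : ℕ) (V : Type u) [Fintype V] (G : SimpleGraph V) (I : Set V)
    (κ : V → Prop), Fintype.card V = n → Hyp G I κ → G.Colorable 3 := by
  classical
  intro n
  induction n using Nat.strong_induction_on with
  | _ n ih =>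
  intro V _ G I κ hn h
  rcases isEmpty_or_nonempty V with hV | hV
  · exact ⟨Coloring.mk (fun v => (hV.false v).elim) (fun {v} => (hV.false v).elim)⟩
  by_cases hsep : ∀ T : Finset V, G.IsNClique 3 T → ∀ u v, u ∉ T → v ∉ T → Rch G (T : Set V) u v
  · have hloc : ∀ T : Finset V, G.IsNClique 3 T → ∃ (a b c : V) (W E : Set V),
        Loc G κ T a b c W E := fun T hT => exists_loc h.planar h.far κ hT (hsep T hT)
    choose! a b c W E hL using hloc
    exact colorable_of_loc h.far I h.indep h.ifar κ h.cls a b c W E hL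
  · push Not at hsep
    obtain ⟨T, hT, u0, v0, hu0, hv0, hno⟩ := hsep
    let K : Set V := {v | Rch G (T : Set V) u0 v}
    have hKT : ∀ v ∈ K, v ∉ T := fun v hv => by simpa using Rch.right hv
    have hKadj : ∀ u v, G.Adj u v → u ∈ K → v ∉ T → v ∈ K := fun u v huv hu hv =>
      Rch.trans hu (Rch.of_adj huv (by simpa using hKT u hu) (by simpa using hv))
    have hu0K : u0 ∈ K := Rch.refl (by simpa using hu0)
    have hv0K : v0 ∉ K := hno
    -- the two parts
    have c1 : Closed G (K ∪ (T : Set V)) := by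
      intro T' hT' v hv hvs w hw
      by_cases hTT : T' = T
      · subst hTT; exact Or.inr hw
      · have hdis : ∀ x ∈ T', x ∉ T := fun x hx hx' => hTT (eq_of_mem h.far hT' hT hx hx')
        have hvK : v ∈ K := by
          rcases hvs with h1 | h1
          · exact h1
          · exact absurd h1 (hdis v hv)
        by_cases hvw : v = w
        · subst hvw; exact Or.inl hvK
        · exact Or.inl (hKadj v w (adj_of_mem hT' hv hw hvw) hvK (hdis w hw))
    have c2 : Closed G Kᶜ := by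
      intro T' hT' v hv hvs w hw hwK
      have hvw : w ≠ v := fun h1 => hvs (h1 ▸ hwK)
      have hvT : v ∈ T := by
        by_contra h1
        exact hvs (hKadj w v (adj_of_mem hT' hw hv hvw) hwK h1)
      have : T' = T := eq_of_mem h.far hT' hT hv hvT
      subst this
      exact hKT w hwK hw
    have k1 : Fintype.card ↥(K ∪ (T : Set V)) < n := by
      rw [← hn]
      refine Fintype.card_subtype_lt (x := v0) ?_
      rintro (h1 | h1)
      · exact hv0K h1
      · exact hv0 (by simpa using h1)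
    have k2 : Fintype.card ↥(Kᶜ : Set V) < n := by
      rw [← hn]
      refine Fintype.card_subtype_lt (x := u0) ?_
      intro h1
      exact h1 hu0K
    obtain ⟨C1⟩ := ih _ k1 _ _ _ _ rfl (h.induce c1)
    obtain ⟨C2⟩ := ih _ k2 _ _ _ _ rfl (h.induce c2)
    let f1 : V → Fin 3 := fun v => if hv : v ∈ K ∪ (T : Set V) then C1 ⟨v, hv⟩ else 0
    let f2 : V → Fin 3 := fun v => if hv : v ∈ (Kᶜ : Set V) then C2 ⟨v, hv⟩ else 0
    have f1v : ∀ u v, G.Adj u v → u ∈ K ∪ (T : Set V) → v ∈ K ∪ (T : Set V) → f1 u ≠ f1 v := by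
      intro u v huv hu hv
      simp only [f1, dif_pos hu, dif_pos hv]
      exact C1.valid (show (G.induce _).Adj ⟨u, hu⟩ ⟨v, hv⟩ from huv)
    have f2v : ∀ u v, G.Adj u v → u ∈ (Kᶜ : Set V) → v ∈ (Kᶜ : Set V) → f2 u ≠ f2 v := by
      intro u v huv hu hv
      simp only [f2, dif_pos hu, dif_pos hv]
      exact C2.valid (show (G.induce _).Adj ⟨u, hu⟩ ⟨v, hv⟩ from huv)
    have T1 : ∀ t ∈ T, t ∈ K ∪ (T : Set V) := fun t ht => Or.inr (by simpa using ht)
    have T2 : ∀ t ∈ T, t ∈ (Kᶜ : Set V) := fun t ht h1 => hKT t h1 ht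
    obtain ⟨π, hπ, hπT⟩ := exists_match hT.card_eq f1 f2
      (fun x hx y hy hxy => by
        by_contra hne
        exact f1v x y (adj_of_mem hT hx hy hne) (T1 x hx) (T1 y hy) hxy)
      (fun x hx y hy hxy => by
        by_contra hne
        exact f2v x y (adj_of_mem hT hx hy hne) (T2 x hx) (T2 y hy) hxy)
    have mix : ∀ u v, G.Adj u v → u ∈ K → v ∉ K → f1 u ≠ π (f2 v) := by
      intro u v huv hu hv
      have hvT : v ∈ T := by
        by_contra h1
        exact hv (hKadj u v huv hu h1)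
      rw [hπT v hvT]
      exact f1v u v huv (Or.inl hu) (T1 v hvT)
    refine ⟨Coloring.mk (fun v => if v ∈ K then f1 v else π (f2 v)) ?_⟩
    intro u v huv
    by_cases hu : u ∈ K
    · by_cases hv : v ∈ K
      · simp only [if_pos hu, if_pos hv]
        exact f1v u v huv (Or.inl hu) (Or.inl hv)
      · simp only [if_pos hu, if_neg hv]
        exact mix u v huv hu hv
    · by_cases hv : v ∈ K
      · simp only [if_neg hu, if_pos hv]
        exact (mix v u huv.symm hv hu).symm
      · simp only [if_neg hu, if_neg hv]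
        intro h1
        exact f2v u v huv hu hv (hπ h1)

/-- **Planar graphs which become bipartite when the triangles are deleted.** -/
theorem colorable {V : Type u} [Fintype V] {G : SimpleGraph V} (hG : Planar G) (h4 : Far G 4)
    (I : Set V) (hI : ∀ x ∈ I, ∀ y ∈ I, ¬ G.Adj x y)
    (hI4 : ∀ x ∈ I, ∀ T : Finset V, G.IsNClique 3 T → ∀ t ∈ T, (4 : ℕ∞) ≤ G.edist x t)
    (hb : (G.induce {v | v ∉ I ∧ ∀ T : Finset V, G.IsNClique 3 T → v ∉ T}).Colorable 2) :
    G.Colorable 3 := by
  obtain ⟨C⟩ := hb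
  let κ : V → Prop := fun v => ∃ h : v ∈ {v | v ∉ I ∧ ∀ T : Finset V, G.IsNClique 3 T → v ∉ T},
    C ⟨v, h⟩ = 1
  refine colorable_aux _ V G I κ rfl ⟨hG, h4, hI, hI4, ?_⟩
  intro u v huv hu hv huI hvI
  have hus : u ∈ {v | v ∉ I ∧ ∀ T : Finset V, G.IsNClique 3 T → v ∉ T} :=
    ⟨huI, fun T hT h => hu ⟨T, hT, h⟩⟩
  have hvs : v ∈ {v | v ∉ I ∧ ∀ T : Finset V, G.IsNClique 3 T → v ∉ T} :=
    ⟨hvI, fun T hT h => hv ⟨T, hT, h⟩⟩
  have h1 : C ⟨u, hus⟩ ≠ C ⟨v, hvs⟩ :=
    C.valid (show (G.induce _).Adj ⟨u, hus⟩ ⟨v, hvs⟩ from huv)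
  have e : ∀ a b : Fin 2, a ≠ b → (a = 1 ↔ ¬ b = 1) := by decide
  have h2 := e _ _ h1
  constructor
  · rintro ⟨_, h3⟩ ⟨_, h4⟩
    exact h2.1 h3 h4
  · intro h3
    exact ⟨hus, h2.2 fun h4 => h3 ⟨hvs, h4⟩⟩

end Pool.Agent.HavelNB
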